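import Pool.Agent.helper26.B3.Defs

/-!
The mirror image of the data of a tripodal optimizer.
-/

set_option autoImplicit false

namespace Pool.Agent.helper26.B3

open Real

theorem L_neg (t : ℝ) : L (-t) = L t - t := by
  have h1 := PS.log_sigmoid (-t)
  rw [sigmoid_neg, PS.log_one_sub_sigmoid] at h1
  show PS.L (-t) = PS.L t - t
  linarith

theorem s_neg (t : ℝ) : s (-t) = s t := by
  unfold s
  rw [sigmoid_neg]
  ring

theorem s_mir (a b : ℝ) : s (-a + -b) = s (a + b) := by
  have h : -a + -b = -(a + b) := by ring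
  rw [h, s_neg]

theorem P_mir (a b c d : ℝ) : P (-a + -b) (-c + -d) = P (c + d) (a + b) := by
  have h : -a + -b = -(a + b) := by ring
  have h' : -c + -d = -(c + d) := by ring
  unfold P
  rw [h, h', sigmoid_neg, sigmoid_neg]
  ring

theorem C_mir (a b c d : ℝ) : C (-a + -b) (-c + -d) = -C (c + d) (a + b) := by
  have h : -a + -b = -(a + b) := by ring
  have h' : -c + -d = -(c + d) := by ring
  unfold C
  rw [h, h', sigmoid_neg, sigmoid_neg, L_neg, L_neg]
  ring

theorem L_mir (a b : ℝ) : L (-a + -b) = L (a + b) - (a + b) := by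
  have h : -a + -b = -(a + b) := by ring
  rw [h, L_neg]

theorem W_mir (a b c d : ℝ) : W (-b) (-a) (-d) (-c) = W a b c d := by
  unfold W
  rw [L_mir, L_mir, L_mir, L_mir]
  ring

theorem W_comm (a b c d : ℝ) : W a b c d = W c d a b := by
  unfold W
  rw [add_comm b d, add_comm a d, add_comm b c, add_comm a c]
  ring

/-- The mirror image of the data of a tripodal optimizer. -/
theorem Tri.mirror {y1 y2 y3 m1 m2 m3 : ℝ} (h : Tri y1 y2 y3 m1 m2 m3) :
    Tri (-y3) (-y2) (-y1) m3 m2 m1 where
  h12 := neg_lt_neg h.h23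
  h23 := neg_lt_neg h.h12
  m1pos := h.m3pos
  m2pos := h.m2pos
  m3pos := h.m1pos
  E1 := by
    have e := h.E2
    simp only [P_mir]
    linarith
  E2 := by
    have e := h.E1
    simp only [P_mir]
    linarith
  A1 := by
    have e := h.A2
    simp only [C_mir]
    linarith
  A2 := by
    have e := h.A1
    simp only [C_mir]
    linarith
  a1 := by
    have e := h.a3
    simp only [s_mir]
    linarith
  a2 := by
    have e := h.a2
    simp only [s_mir]
    linarith
  a3 := by
    have e := h.a1
    simp only [s_mir]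
    linarith
  T3 := by
    intro g1 g2 hg
    have e := h.T1 g2 g1
    simp only [s_mir] at hg
    have e' := e (by linarith)
    simp only [s_mir, P_mir, W_mir]
    have hW : W y2 y3 y1 y2 = W y1 y2 y2 y3 := W_comm _ _ _ _
    rw [hW]
    nlinarith [e']
  T1 := by
    intro g1 g2 hg
    have e := h.T3 g2 g1
    simp only [s_mir] at hg
    have e' := e (by linarith)
    simp only [s_mir, P_mir, W_mir]
    have hW : W y2 y3 y1 y2 = W y1 y2 y2 y3 := W_comm _ _ _ _
    rw [hW]
    nlinarith [e']

end Pool.Agent.helper26.B3
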