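import Pool.Agent.helper26.PS.Final
import Pool.Agent.helper85.B3.Mir

/-!
Assembly for the 2-star model: at most two podes, from the finite dimensional data `Tri` of an
optimizer with exactly three points in the support of its degree law.
-/

set_option autoImplicit false

namespace Pool.Agent.helper26.B3

open MeasureTheory Real Pool.Agent.helper26.PS
open scoped unitInterval

variable {p : ℕ} {β : ℝ}

/-- The fixed point equation `y = ∫ S(arg(y, w)) dν(w)` on the support of the degree law `ν`. -/
theorem support_fix {lam : ℝ} {h : I → I → ℝ} {γ : I → I}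
    (hγ : Measurable γ) (hγh : ∀ x, (γ x : ℝ) = deg h x)
    (hae : ∀ᵐ z : I × I, h z.1 z.2 = sigmoid (arg p β lam (γ z.1, γ z.2))) :
    ∀ y ∈ ((volume : Measure I).map γ).support,
      (y : ℝ) = ∫ w, sigmoid (arg p β lam (y, w)) ∂((volume : Measure I).map γ) := by
  set ν := (volume : Measure I).map γ with hν
  have hprob : IsProbabilityMeasure ν := Measure.isProbabilityMeasure_map hγ.aemeasurable
  set G : I → ℝ := fun y => ∫ w, sigmoid (arg p β lam (y, w)) ∂ν with hG
  have hcont2 : Continuous fun z : I × I => sigmoid (arg p β lam z) :=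
    continuous_sigmoid.comp (continuous_arg p β lam)
  have hGc : Continuous G := by
    refine continuous_of_dominated (bound := fun _ => 1) ?_ ?_ ?_ ?_
    · intro y
      exact (hcont2.comp (by fun_prop : Continuous fun w : I => (y, w))).aestronglyMeasurable
    · intro y
      refine Filter.Eventually.of_forall fun w => ?_
      rw [Real.norm_eq_abs, abs_of_nonneg (sigmoid_nonneg _)]
      exact sigmoid_le_one _
    · exact integrable_const _
    · refine Filter.Eventually.of_forall fun w => ?_
      exact hcont2.comp (by fun_prop : Continuous fun y : I => (y, w))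
  have hae2 : ∀ᵐ x : I, (γ x : ℝ) = G (γ x) := by
    have h1 : ∀ᵐ x : I, ∀ᵐ y : I, h x y = sigmoid (arg p β lam (γ x, γ y)) :=
      Measure.ae_ae_of_ae_prod hae
    filter_upwards [h1] with x hx
    rw [hγh x, hG]
    simp only
    have h2 : deg h x = ∫ y : I, sigmoid (arg p β lam (γ x, γ y)) := integral_congr_ae hx
    have h3 : Continuous fun w : I => sigmoid (arg p β lam (γ x, w)) :=
      hcont2.comp (by fun_prop : Continuous fun w : I => (γ x, w))
    rw [h2, hν, integral_map hγ.aemeasurable h3.aestronglyMeasurable]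
  have hae3 : ∀ᵐ y : I ∂ν, (y : ℝ) = G y := by
    have hclosed : IsClosed {y : I | (y : ℝ) = G y} := isClosed_eq continuous_subtype_val hGc
    rw [hν, ae_map_iff hγ.aemeasurable hclosed.measurableSet]
    exact hae2
  have hclosed : IsClosed {y : I | (y : ℝ) = G y} := isClosed_eq continuous_subtype_val hGc
  have hsub : ν.support ⊆ {y : I | (y : ℝ) = G y} :=
    Measure.support_subset_of_isClosed hclosed hae3
  exact fun y hy => hsub hy

/-- What has to be shown about a degree law whose support has three points. -/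
def TriOfSupport : Prop :=
  ∀ (β lam C ε : ℝ) (ν : Measure I) [IsProbabilityMeasure ν], 0 < β → 0 ≤ C →
    (∫ w, sigmoid (arg 2 β lam w) ∂(ν.prod ν) = ε) →
    (∀ ν' : Measure I, IsProbabilityMeasure ν' →
      (1 / 2) * ∫ w, L (arg 2 β lam w) ∂(ν'.prod ν')
        - ∫ x, (((2 : ℕ) : ℝ) - 1) * β * (x : ℝ) ^ 2 ∂ν' ≤
      (1 / 2) * ∫ w, L (arg 2 β lam w) ∂(ν.prod ν)
        - ∫ x, (((2 : ℕ) : ℝ) - 1) * β * (x : ℝ) ^ 2 ∂ν
        + C * (∫ w, sigmoid (arg 2 β lam w) ∂(ν'.prod ν') - ε) ^ 2) →
    (∀ y ∈ ν.support, (y : ℝ) = ∫ w, sigmoid (arg 2 β lam (y, w)) ∂ν) →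
    ν.support.encard = 3 →
    ∃ y1 y2 y3 m1 m2 m3 : ℝ, Tri y1 y2 y3 m1 m2 m3

theorem podes2_of_support {h : I → I → ℝ} {γ : I → I} (hγ : Measurable γ) {f : I × I → ℝ}
    (hae : ∀ᵐ z : I × I, h z.1 z.2 = f (γ z.1, γ z.2))
    (hs : ((volume : Measure I).map γ).support.encard ≤ 2) : AtMostPodes 2 h := by
  set ν := (volume : Measure I).map γ with hν
  set S := ν.support with hS
  have hw : ∃ w0 w1 : I, ∀ y ∈ S, y = w0 ∨ y = w1 := by
    have hfin : S.Finite := Set.finite_of_encard_le_coe hs
    rcases S.eq_empty_or_nonempty with he | ⟨a, ha⟩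
    · exact ⟨0, 0, fun y hy => absurd hy (by rw [he]; exact Set.notMem_empty y)⟩
    · by_cases hb : ∃ b ∈ S, b ≠ a
      · obtain ⟨b, hb, hab⟩ := hb
        refine ⟨a, b, fun y hy => ?_⟩
        by_contra hcon
        push Not at hcon
        have h3 : ({a, b, y} : Set I).encard ≤ S.encard := by
          refine Set.encard_le_encard ?_
          intro z hz
          rcases hz with rfl | rfl | rfl
          · exact ha
          · exact hb
          · exact hy
        have h4 : ({a, b, y} : Set I).encard = 3 := by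
          rw [Set.encard_eq_three]
          exact ⟨a, b, y, hab.symm, hcon.1.symm, hcon.2.symm, rfl⟩
        rw [h4] at h3
        have h5 := h3.trans hs
        exact absurd h5 (by norm_num)
      · push Not at hb
        exact ⟨a, a, fun y hy => Or.inl (hb y hy)⟩
  obtain ⟨w0, w1, hw⟩ := hw
  set F : I → Fin 2 := fun y => if y = w0 then 0 else 1 with hF
  have hFm : Measurable F :=
    Measurable.ite (measurableSet_singleton w0) measurable_const measurable_const
  have hFw : ∀ y ∈ S, (![w0, w1] : Fin 2 → I) (F y) = y := by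
    intro y hy
    by_cases h0 : y = w0
    · have hF0 : F y = 0 := if_pos h0
      rw [hF0]
      exact h0.symm
    · have hF0 : F y = 1 := if_neg h0
      rw [hF0]
      rcases hw y hy with h1 | h1
      · exact absurd h1 h0
      · exact h1.symm
  have hγS : ∀ᵐ x : I, γ x ∈ S := by
    have h1 : ∀ᵐ y ∂ν, y ∈ S := Measure.support_mem_ae
    exact ae_of_ae_map hγ.aemeasurable h1
  have h1 : ∀ᵐ z : I × I, γ z.1 ∈ S :=
    (Measure.quasiMeasurePreserving_fst (μ := (volume : Measure I))
      (ν := (volume : Measure I))).ae hγS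
  have h2 : ∀ᵐ z : I × I, γ z.2 ∈ S :=
    (Measure.quasiMeasurePreserving_snd (μ := (volume : Measure I))
      (ν := (volume : Measure I))).ae hγS
  refine ⟨F ∘ γ, hFm.comp hγ, fun i j => f ((![w0, w1] : Fin 2 → I) i, (![w0, w1] : Fin 2 → I) j),
    ?_⟩
  filter_upwards [hae, h1, h2] with z hz hz1 hz2
  rw [hz]
  simp only [Function.comp]
  rw [hFw _ hz1, hFw _ hz2]

/-- Every optimizing graphon of the constrained 2-star model has at most two podes. -/
theorem at_most_two_of (hT : TriOfSupport)
    (hN : ∀ y1 y2 y3 m1 m2 m3 : ℝ, Tri y1 y2 y3 m1 m2 m3 → y2 ≤ 0 → False)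
    (ε : ℝ) (h0 : 0 < ε) (h1 : ε < 1) (β : ℝ)
    (h : I → I → ℝ) (hopt : IsOptimizer 2 ε β h) : AtMostPodes 2 h := by
  rcases le_or_gt β 0 with hβ | hβ
  · refine ⟨fun _ => 0, measurable_const, fun _ _ => ε, ?_⟩
    exact uniform_of_nonpos (by omega) hβ h0 h1 hopt
  · obtain ⟨γ, lam, C, hγ, hγh, hC, hae, hε, KEY⟩ :=
      key_law (p := 2) (by omega) hβ.le h0 h1 hopt
    have hprob : IsProbabilityMeasure ((volume : Measure I).map γ) :=
      Measure.isProbabilityMeasure_map hγ.aemeasurable
    have h3 := support_encard_le (p := 2) (by omega) hβ _ hC hε KEY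
    refine podes2_of_support hγ (f := fun w => sigmoid (arg 2 β lam w)) hae ?_
    by_contra hcon
    have h4 : ((volume : Measure I).map γ).support.encard = 3 := by
      refine le_antisymm h3 ?_
      have h5 := Order.add_one_le_of_lt (not_le.1 hcon)
      norm_num at h5
      exact h5
    obtain ⟨y1, y2, y3, m1, m2, m3, ht⟩ := hT β lam C ε _ hβ hC hε KEY
      (support_fix hγ hγh hae) h4
    rcases le_total y2 0 with h6 | h6
    · exact hN _ _ _ _ _ _ ht h6
    · exact hN _ _ _ _ _ _ ht.mirror (by linarith)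

end Pool.Agent.helper26.B3
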