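import Pool.Agent.helper85.B3.Fin

/-!
From the comparison inequality for finite laws to the data `Tri`: assembly.
-/

set_option autoImplicit false

namespace Pool.Agent.helper26.B3

open Real Set Filter Topology

theorem J2_eq (b lam : ℝ) {n : ℕ} (a α Y δ : Fin n → ℝ) : J2 b lam a α Y δ =
    (∑ i, ∑ j, α i * α j * L (Y i + Y j)) +
      2 * (∑ i, α i * δ i * ∑ j, a j * sigmoid (Y i + Y j)) +
      2 * (∑ i, a i * δ i * ∑ j, α j * sigmoid (Y i + Y j)) +
      (∑ i, a i * δ i ^ 2 * ∑ j, a j * s (Y i + Y j)) +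
      (∑ i, a i * δ i * ∑ j, a j * δ j * s (Y i + Y j)) -
      2 * (∑ i, α i * (Y i - lam) * δ i) / b - (∑ i, a i * δ i ^ 2) / b := by
  have cS : ∀ i j, sigmoid (Y i + Y j) = sigmoid (Y j + Y i) := fun i j => by rw [add_comm]
  have cs : ∀ i j, s (Y i + Y j) = s (Y j + Y i) := fun i j => by rw [add_comm]
  have e1 := sum_symm (fun i j => sigmoid (Y i + Y j)) cS a (fun i => α i * δ i)
  have e2 := sum_symm (fun i j => sigmoid (Y i + Y j)) cS α (fun i => a i * δ i)
  have e3 := sum_symm (fun i j => s (Y i + Y j)) cs a (fun i => a i * δ i ^ 2)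
  have r1 : ∑ i, ∑ j, (2 * α i * α j * L (Y i + Y j) +
      2 * (α i * a j + a i * α j) * (sigmoid (Y i + Y j) * (δ i + δ j)) +
      a i * a j * (s (Y i + Y j) * (δ i + δ j) ^ 2)) =
      2 * (∑ i, ∑ j, α i * α j * L (Y i + Y j)) +
      (2 * (∑ i, ∑ j, (α i * δ i) * a j * sigmoid (Y i + Y j)) +
        2 * (∑ i, ∑ j, a i * (α j * δ j) * sigmoid (Y i + Y j)) +
        2 * (∑ i, ∑ j, α i * (a j * δ j) * sigmoid (Y i + Y j)) +
        2 * (∑ i, ∑ j, (a i * δ i) * α j * sigmoid (Y i + Y j))) +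
      ((∑ i, ∑ j, (a i * δ i ^ 2) * a j * s (Y i + Y j)) +
        (∑ i, ∑ j, a i * (a j * δ j ^ 2) * s (Y i + Y j)) +
        2 * ∑ i, ∑ j, (a i * δ i) * (a j * δ j) * s (Y i + Y j)) := by
    simp only [Finset.mul_sum, ← Finset.sum_add_distrib]
    refine Finset.sum_congr rfl fun i _ => Finset.sum_congr rfl fun j _ => ?_
    ring
  have r2 : ∑ i, (4 * α i * (Y i - lam) * δ i + 2 * a i * δ i ^ 2) =
      4 * (∑ i, α i * (Y i - lam) * δ i) + 2 * ∑ i, a i * δ i ^ 2 := by
    simp only [Finset.mul_sum, ← Finset.sum_add_distrib]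
    exact Finset.sum_congr rfl fun i _ => by ring
  have p1 : ∑ i, α i * δ i * ∑ j, a j * sigmoid (Y i + Y j) =
      ∑ i, ∑ j, (α i * δ i) * a j * sigmoid (Y i + Y j) := by
    refine Finset.sum_congr rfl fun i _ => ?_
    rw [Finset.mul_sum]
    exact Finset.sum_congr rfl fun j _ => by ring
  have p2 : ∑ i, a i * δ i * ∑ j, α j * sigmoid (Y i + Y j) =
      ∑ i, ∑ j, (a i * δ i) * α j * sigmoid (Y i + Y j) := by
    refine Finset.sum_congr rfl fun i _ => ?_
    rw [Finset.mul_sum]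
    exact Finset.sum_congr rfl fun j _ => by ring
  have p3 : ∑ i, a i * δ i ^ 2 * ∑ j, a j * s (Y i + Y j) =
      ∑ i, ∑ j, (a i * δ i ^ 2) * a j * s (Y i + Y j) := by
    refine Finset.sum_congr rfl fun i _ => ?_
    rw [Finset.mul_sum]
    exact Finset.sum_congr rfl fun j _ => by ring
  have p4 : ∑ i, a i * δ i * ∑ j, a j * δ j * s (Y i + Y j) =
      ∑ i, ∑ j, (a i * δ i) * (a j * δ j) * s (Y i + Y j) := by
    refine Finset.sum_congr rfl fun i _ => ?_
    rw [Finset.mul_sum]
    exact Finset.sum_congr rfl fun j _ => by ring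
  unfold J2
  rw [r1, r2, p1, p2, p3, p4, e1, e2, e3]
  have hd : (4 * (∑ i, α i * (Y i - lam) * δ i) + 2 * ∑ i, a i * δ i ^ 2) / (2 * b) =
      2 * (∑ i, α i * (Y i - lam) * δ i) / b + (∑ i, a i * δ i ^ 2) / b := by
    rw [← add_div]
    have : 4 * (∑ i, α i * (Y i - lam) * δ i) + 2 * ∑ i, a i * δ i ^ 2 =
        2 * (2 * (∑ i, α i * (Y i - lam) * δ i) + ∑ i, a i * δ i ^ 2) := by ring
    rw [this, mul_div_mul_left _ _ (by norm_num : (2 : ℝ) ≠ 0)]
  rw [hd]
  ring

variable {b lam C : ℝ} {w y : Fin 3 → ℝ}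

theorem ps_deriv (b lam : ℝ) (w y : Fin 3 → ℝ) (x : ℝ) :
    HasDerivAt (ps b lam w y) (∑ j, w j * sigmoid (x + y j) - (x - lam) / b) x := by
  have h1 : HasDerivAt (fun x => ∑ j, w j * L (x + y j)) (∑ j, w j * sigmoid (x + y j)) x :=
    HasDerivAt.fun_sum (u := Finset.univ) fun j _ =>
      ((hasDerivAt_L (x + y j)).comp_add_const x (y j)).const_mul (w j)
  have h2 : HasDerivAt (fun x => (x - lam) ^ 2 / (2 * b)) ((x - lam) / b) x := by
    have h3 := (((hasDerivAt_id x).sub_const lam).pow 2).div_const (2 * b)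
    have e : ((2 : ℕ) * (id x - lam) ^ (2 - 1) * 1) / (2 * b) = (x - lam) / b := by
      simp only [Nat.cast_ofNat, Nat.add_one_sub_one, pow_one, mul_one, id]
      rw [mul_div_mul_left _ _ (by norm_num : (2 : ℝ) ≠ 0)]
    rw [e] at h3
    exact h3
  exact h1.sub h2

theorem ps_deriv2 (b lam : ℝ) (w y : Fin 3 → ℝ) (x : ℝ) :
    HasDerivAt (fun x => ∑ j, w j * sigmoid (x + y j) - (x - lam) / b)
      (∑ j, w j * s (x + y j) - 1 / b) x := by
  have h1 : HasDerivAt (fun x => ∑ j, w j * sigmoid (x + y j)) (∑ j, w j * s (x + y j)) x :=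
    HasDerivAt.fun_sum (u := Finset.univ) fun j _ =>
      ((hasDerivAt_S (x + y j)).comp_add_const x (y j)).const_mul (w j)
  exact h1.sub (((hasDerivAt_id x).sub_const lam).div_const b)

/-- the second order condition for one atom -/
theorem FK.a_le (h : FK b lam C w y) (i : Fin 3) : ∑ j, (b * w j) * s (y i + y j) ≤ 1 := by
  have hb := h.bpos
  have h0 : ∑ j, w j * sigmoid (y i + y j) - (y i - lam) / b = 0 := by
    rw [h.fix i, mul_div_cancel_left₀ _ hb.ne', sub_self]
  have hs := second_order (J := fun t => ps b lam w y (y i + t))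
    (J' := fun t => ∑ j, w j * sigmoid (y i + t + y j) - (y i + t - lam) / b)
    (E := fun _ => 0) (J2 := ∑ j, w j * s (y i + y j) - 1 / b) (C := 0)
    (fun t => (ps_deriv b lam w y (y i + t)).comp_const_add (y i) t)
    (by simpa using h0)
    (by
      have := (ps_deriv2 b lam w y (y i + 0)).comp_const_add (y i) 0
      simpa using this)
    (hasDerivAt_const _ _) le_rfl
    (by
      have hc : Continuous fun t : ℝ => y i + t := by fun_prop
      have ht : Tendsto (fun t : ℝ => y i + t) (𝓝[>] 0) (𝓝 (y i + 0)) :=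
        (hc.tendsto 0).mono_left nhdsWithin_le_nhds
      rw [add_zero] at ht
      filter_upwards [ht.eventually (lt_mem_nhds (h.rng i).1),
        ht.eventually (gt_mem_nhds (h.rng i).2)] with t ht1 ht2
      simpa using h.ps_le ⟨ht1.le, ht2.le⟩ i)
  have h1 : ∑ j, (b * w j) * s (y i + y j) = b * ∑ j, w j * s (y i + y j) := by
    rw [Finset.mul_sum]
    exact Finset.sum_congr rfl fun j _ => by ring
  rw [h1]
  have h2 := mul_le_mul_of_nonneg_left hs hb.le
  rw [mul_zero, mul_sub, mul_one_div_cancel hb.ne'] at h2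
  linarith

theorem FK.E_eq (h : FK b lam C w y) (i k : Fin 3) :
    ∑ j, (b * w j) * P (y i + y j) (y k + y j) = y k - y i := by
  have h1 := h.fix i
  have h2 := h.fix k
  have h3 : ∑ j, (b * w j) * P (y i + y j) (y k + y j) =
      b * (∑ j, w j * sigmoid (y k + y j)) - b * (∑ j, w j * sigmoid (y i + y j)) := by
    rw [Finset.mul_sum, Finset.mul_sum, ← Finset.sum_sub_distrib]
    refine Finset.sum_congr rfl fun j _ => ?_
    unfold P
    ring
  rw [h3]
  linarith

theorem FK.A_eq (h : FK b lam C w y) (i k : Fin 3) :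
    ∑ j, (b * w j) * Pool.Agent.helper26.B3.C (y i + y j) (y k + y j) = 0 := by
  have hb := h.bpos
  have h1 := h.fix i
  have h2 := h.fix k
  have h3 := h.ps_eq i k
  unfold ps at h3
  have h4 : ∑ j, (b * w j) * Pool.Agent.helper26.B3.C (y i + y j) (y k + y j) =
      (y k - y i) / 2 * (b * (∑ j, w j * sigmoid (y i + y j)) +
        b * (∑ j, w j * sigmoid (y k + y j))) -
      b * ((∑ j, w j * L (y k + y j)) - ∑ j, w j * L (y i + y j)) := by
    rw [← Finset.sum_sub_distrib, ← mul_add, ← Finset.sum_add_distrib, Finset.mul_sum,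
      Finset.mul_sum, Finset.mul_sum, ← Finset.sum_sub_distrib]
    refine Finset.sum_congr rfl fun j _ => ?_
    unfold Pool.Agent.helper26.B3.C
    ring
  rw [h4, ← h1, ← h2]
  have h5 : (∑ j, w j * L (y k + y j)) - ∑ j, w j * L (y i + y j) =
      ((y k - lam) ^ 2 - (y i - lam) ^ 2) / (2 * b) := by
    rw [sub_div]
    linarith
  rw [h5]
  field_simp
  ring

/-- the second order condition in general form -/
theorem FK.T (h : FK b lam C w y) (i : Fin 3) (g1 g2 : ℝ)
    (hg : g1 * (y 1 - y 0) + g2 * (y 2 - y 1) = -∑ j, (b * w j) * s (y i + y j)) :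
    (b * w i) * (s (y i + y i) + 2 * g1 * P (y 0 + y i) (y 1 + y i) +
      2 * g2 * P (y 1 + y i) (y 2 + y i) + g1 ^ 2 * W (y 0) (y 1) (y 0) (y 1) +
      2 * g1 * g2 * W (y 0) (y 1) (y 1) (y 2) + g2 ^ 2 * W (y 1) (y 2) (y 1) (y 2)) ≤
      1 - ∑ j, (b * w j) * s (y i + y j) := by
  have hb := h.bpos
  have hwi := h.wpos i
  set α : Fin 3 → ℝ := ![-g1 / b, (g1 - g2) / b, g2 / b] with hα
  set δ : Fin 3 → ℝ := Pi.single i (1 / (b * w i)) with hδ
  have hδi : δ i = 1 / (b * w i) := by rw [hδ, Pi.single_eq_same]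
  have hδs : ∀ f : Fin 3 → ℝ, ∑ k, f k * δ k = f i * (1 / (b * w i)) := fun f => by
    rw [Finset.sum_eq_single i]
    · rw [hδi]
    · intro k _ hk
      rw [hδ, Pi.single_eq_of_ne hk, mul_zero]
    · intro hk
      exact absurd (Finset.mem_univ i) hk
  have hαs : ∑ k, α k = 0 := by
    rw [Fin.sum_univ_three, hα]
    simp only [Matrix.cons_val]
    ring
  have hf0 : ∀ k, ∑ j, w j * sigmoid (y k + y j) - (y k - lam) / b = 0 := fun k => by
    rw [h.fix k, mul_div_cancel_left₀ _ hb.ne', sub_self]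
  have hJ1 : J1 b lam w α y δ 0 = 0 := by
    rw [J1_zero]
    have e1 : ∑ k, α k * (∑ j, w j * L (y k + y j) - (y k - lam) ^ 2 / (2 * b)) = 0 := by
      have e2 : ∀ k, ∑ j, w j * L (y k + y j) - (y k - lam) ^ 2 / (2 * b) =
          ps b lam w y (y 0) := fun k => h.ps_eq k 0
      rw [Finset.sum_congr rfl fun k _ => by rw [e2 k], ← Finset.sum_mul, hαs, zero_mul]
    rw [e1, zero_add]
    refine Finset.sum_eq_zero fun k _ => ?_
    rw [hf0 k, mul_zero]
  have hfix : ∀ k, ∑ j, w j * sigmoid (y k + y j) = (y k - lam) / b := fun k => by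
    linarith [hf0 k]
  have hE1 : E1 w α y δ = 0 := by
    rw [E1_eq]
    have e1 : ∑ k, α k * ∑ j, w j * sigmoid (y k + y j) =
        (g1 * (y 1 - y 0) + g2 * (y 2 - y 1)) / b ^ 2 := by
      rw [Finset.sum_congr rfl fun k _ => by rw [hfix k], Fin.sum_univ_three, hα]
      simp only [Matrix.cons_val]
      field_simp
      ring
    have e2 : ∑ k, w k * δ k * ∑ j, w j * s (y k + y j) =
        (∑ j, (b * w j) * s (y i + y j)) / b ^ 2 := by
      have e3 := hδs fun k => w k * ∑ j, w j * s (y k + y j)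
      have e4 : ∑ k, w k * δ k * ∑ j, w j * s (y k + y j) =
          ∑ k, (w k * ∑ j, w j * s (y k + y j)) * δ k :=
        Finset.sum_congr rfl fun k _ => by ring
      have e5 : ∑ j, (b * w j) * s (y i + y j) = b * ∑ j, w j * s (y i + y j) := by
        rw [Finset.mul_sum]
        exact Finset.sum_congr rfl fun j _ => by ring
      rw [e4, e3, e5]
      field_simp
    rw [e1, e2, hg]
    ring
  have hJ2 := h.path α δ hαs hJ1 hE1
  -- the value of the second derivative
  have hval : J2 b lam w α y δ = (1 / (b ^ 2 * (b * w i))) *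
      ((b * w i) * (s (y i + y i) + 2 * g1 * P (y 0 + y i) (y 1 + y i) +
        2 * g2 * P (y 1 + y i) (y 2 + y i) + g1 ^ 2 * W (y 0) (y 1) (y 0) (y 1) +
        2 * g1 * g2 * W (y 0) (y 1) (y 1) (y 2) + g2 ^ 2 * W (y 1) (y 2) (y 1) (y 2)) -
      (1 - ∑ j, (b * w j) * s (y i + y j))) := by
    have q1 : ∑ k, ∑ j, α k * α j * L (y k + y j) =
        (g1 ^ 2 * W (y 0) (y 1) (y 0) (y 1) + 2 * g1 * g2 * W (y 0) (y 1) (y 1) (y 2) +
          g2 ^ 2 * W (y 1) (y 2) (y 1) (y 2)) / b ^ 2 := by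
      have s1 : L (y 1 + y 0) = L (y 0 + y 1) := by rw [add_comm]
      have s2 : L (y 2 + y 0) = L (y 0 + y 2) := by rw [add_comm]
      have s3 : L (y 2 + y 1) = L (y 1 + y 2) := by rw [add_comm]
      simp only [Fin.sum_univ_three, hα, Matrix.cons_val, W, s1, s2, s3]
      field_simp
      ring
    have q2 : ∑ k, α k * sigmoid (y k + y i) =
        (g1 * P (y 0 + y i) (y 1 + y i) + g2 * P (y 1 + y i) (y 2 + y i)) / b := by
      simp only [Fin.sum_univ_three, hα, Matrix.cons_val, P]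
      field_simp
      ring
    have q3 : ∑ k, w k * δ k * ∑ j, α j * sigmoid (y k + y j) =
        (1 / b) * ∑ j, α j * sigmoid (y j + y i) := by
      have e3 := hδs fun k => w k * ∑ j, α j * sigmoid (y k + y j)
      have e4 : ∑ k, w k * δ k * ∑ j, α j * sigmoid (y k + y j) =
          ∑ k, (w k * ∑ j, α j * sigmoid (y k + y j)) * δ k :=
        Finset.sum_congr rfl fun k _ => by ring
      have e5 : ∑ j, α j * sigmoid (y i + y j) = ∑ j, α j * sigmoid (y j + y i) :=
        Finset.sum_congr rfl fun j _ => by rw [add_comm]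
      rw [e4, e3, e5]
      field_simp
    have q4 : ∑ k, w k * δ k ^ 2 * ∑ j, w j * s (y k + y j) =
        (1 / (b ^ 2 * (b * w i))) * ∑ j, (b * w j) * s (y i + y j) := by
      have e3 := hδs fun k => w k * δ k * ∑ j, w j * s (y k + y j)
      have e4 : ∑ k, w k * δ k ^ 2 * ∑ j, w j * s (y k + y j) =
          ∑ k, (w k * δ k * ∑ j, w j * s (y k + y j)) * δ k :=
        Finset.sum_congr rfl fun k _ => by ring
      have e5 : ∑ j, (b * w j) * s (y i + y j) = b * ∑ j, w j * s (y i + y j) := by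
        rw [Finset.mul_sum]
        exact Finset.sum_congr rfl fun j _ => by ring
      rw [e4, e3, e5, hδi]
      field_simp
    have q5 : ∑ k, w k * δ k * ∑ j, w j * δ j * s (y k + y j) =
        (1 / b ^ 2) * s (y i + y i) := by
      have e3 := hδs fun k => w k * ∑ j, w j * δ j * s (y k + y j)
      have e4 : ∑ k, w k * δ k * ∑ j, w j * δ j * s (y k + y j) =
          ∑ k, (w k * ∑ j, w j * δ j * s (y k + y j)) * δ k :=
        Finset.sum_congr rfl fun k _ => by ring
      have e6 := hδs fun j => w j * s (y i + y j)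
      have e5 : ∑ j, w j * δ j * s (y i + y j) = ∑ j, (w j * s (y i + y j)) * δ j :=
        Finset.sum_congr rfl fun j _ => by ring
      rw [e4, e3, e5, e6]
      field_simp
    have q6 : ∑ k, w k * δ k ^ 2 = 1 / (b * (b * w i)) := by
      have e3 := hδs fun k => w k * δ k
      have e4 : ∑ k, w k * δ k ^ 2 = ∑ k, (w k * δ k) * δ k :=
        Finset.sum_congr rfl fun k _ => by ring
      rw [e4, e3, hδi]
      field_simp
    have q7 : ∑ k, α k * δ k * ∑ j, w j * sigmoid (y k + y j) =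
        (∑ k, α k * (y k - lam) * δ k) / b := by
      rw [Finset.sum_div]
      refine Finset.sum_congr rfl fun k _ => ?_
      rw [hfix k]
      ring
    rw [J2_eq, q1, q3, q2, q4, q5, q6, q7]
    field_simp
    ring
  rw [hval] at hJ2
  have hc : 0 < 1 / (b ^ 2 * (b * w i)) := by positivity
  by_contra hcon
  have h9 := mul_pos hc (sub_pos.2 (not_le.1 hcon))
  linarith

/-- The finite dimensional data of a tripodal optimizer. -/
theorem FK.tri (h : FK b lam C w y) :
    Tri (y 0) (y 1) (y 2) (b * w 0) (b * w 1) (b * w 2) := by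
  have hE1 := h.E_eq 0 1
  have hE2 := h.E_eq 1 2
  have hA1 := h.A_eq 0 1
  have hA2 := h.A_eq 1 2
  have ha1 := h.a_le 0
  have ha2 := h.a_le 1
  have ha3 := h.a_le 2
  have hT3 := h.T 2
  have hT1 := h.T 0
  simp only [Fin.sum_univ_three] at hE1 hE2 hA1 hA2 ha1 ha2 ha3 hT3 hT1
  exact
    { h12 := h.h01
      h23 := h.h12
      m1pos := mul_pos h.bpos (h.wpos 0)
      m2pos := mul_pos h.bpos (h.wpos 1)
      m3pos := mul_pos h.bpos (h.wpos 2)
      E1 := hE1
      E2 := hE2
      A1 := hA1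
      A2 := hA2
      a1 := ha1
      a2 := ha2
      a3 := ha3
      T3 := fun g1 g2 hg => by
        have e1 := hT3 g1 g2 (by simpa [add_comm] using hg)
        simpa [add_comm] using e1
      T1 := fun g1 g2 hg => by
        have e1 := hT1 g1 g2 (by simpa [add_comm] using hg)
        simpa [add_comm] using e1 }

end Pool.Agent.helper26.B3
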