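import Pool.Agent.helper85.B3.Asm
import Pool.Agent.helper85.B3.FinT

/-!
The data `Tri` of an optimizer of the 2-star model with three points in the support.
-/

set_option autoImplicit false

namespace Pool.Agent.helper26.B3

open MeasureTheory Real Pool.Agent.helper26.PS
open scoped unitInterval

/-- the finite law with the weights `a` and the positions `z` -/
noncomputable def fl {n : ℕ} (a : Fin n → ℝ) (z : Fin n → I) : Measure I :=
  ∑ i, ENNReal.ofReal (a i) • Measure.dirac (z i)

theorem fl_prob {n : ℕ} {a : Fin n → ℝ} (ha : ∀ i, 0 ≤ a i) (hs : ∑ i, a i = 1) (z : Fin n → I) :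
    IsProbabilityMeasure (fl a z) := by
  constructor
  unfold fl
  rw [Measure.finsetSum_apply]
  have h1 : ∀ i, (ENNReal.ofReal (a i) • Measure.dirac (z i)) Set.univ = ENNReal.ofReal (a i) :=
    fun i => by
      rw [Measure.smul_apply, measure_univ, smul_eq_mul, mul_one]
  rw [Finset.sum_congr rfl fun i _ => h1 i, ← ENNReal.ofReal_sum_of_nonneg fun i _ => ha i, hs,
    ENNReal.ofReal_one]

theorem int_fl {n : ℕ} {a : Fin n → ℝ} (ha : ∀ i, 0 ≤ a i) (z : Fin n → I) {f : I → ℝ}
    (hf : Continuous f) : ∫ x, f x ∂(fl a z) = ∑ i, a i * f (z i) := by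
  unfold fl
  rw [integral_finsetSum_measure]
  · refine Finset.sum_congr rfl fun i _ => ?_
    rw [integral_smul_measure, integral_dirac, ENNReal.toReal_ofReal (ha i), smul_eq_mul]
  · intro i _
    have h1 : Integrable f (Measure.dirac (z i)) :=
      hf.integrable_of_hasCompactSupport (HasCompactSupport.of_compactSpace f)
    exact h1.smul_measure ENNReal.ofReal_ne_top

theorem int_prod_eq (ν : Measure I) [IsProbabilityMeasure ν] {f : I × I → ℝ} (hf : Continuous f) :
    ∫ z, f z ∂(ν.prod ν) = ∫ x, ∫ y, f (x, y) ∂ν ∂ν := by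
  refine integral_prod f ?_
  exact hf.integrable_of_hasCompactSupport (HasCompactSupport.of_compactSpace f)

theorem int_prod_fl {n : ℕ} {a : Fin n → ℝ} (ha : ∀ i, 0 ≤ a i) (hs : ∑ i, a i = 1)
    (z : Fin n → I) {f : I × I → ℝ} (hf : Continuous f) :
    ∫ v, f v ∂((fl a z).prod (fl a z)) = ∑ i, ∑ j, a i * a j * f (z i, z j) := by
  have := fl_prob ha hs z
  rw [int_prod_eq _ hf]
  have h1 : ∀ x, ∫ y, f (x, y) ∂(fl a z) = ∑ j, a j * f (x, z j) := fun x =>
    int_fl ha z (hf.comp (by fun_prop : Continuous fun y : I => (x, y)))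
  rw [integral_congr_ae (Filter.Eventually.of_forall h1)]
  have h2 : Continuous fun x : I => ∑ j, a j * f (x, z j) :=
    continuous_finsetSum _ fun j _ =>
      continuous_const.mul (hf.comp (by fun_prop : Continuous fun x : I => (x, z j)))
  rw [int_fl ha z h2]
  refine Finset.sum_congr rfl fun i _ => ?_
  rw [Finset.mul_sum]
  exact Finset.sum_congr rfl fun j _ => by ring

/-- A probability measure whose support has three points is a finite law. -/
theorem exists_fl (ν : Measure I) [IsProbabilityMeasure ν] (h3 : ν.support.encard = 3) :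
    ∃ (w : Fin 3 → ℝ) (x : Fin 3 → I), (∀ i, 0 < w i) ∧ ∑ i, w i = 1 ∧ StrictMono x ∧
      (∀ i, x i ∈ ν.support) ∧ ∀ f : I → ℝ, ∫ v, f v ∂ν = ∑ i, w i * f (x i) := by
  have hfin : ν.support.Finite := Set.finite_of_encard_eq_coe h3
  set T := hfin.toFinset with hT
  have hcard : T.card = 3 := by
    have := hfin.encard_eq_coe_toFinset_card
    rw [h3] at this
    exact_mod_cast this.symm
  set x := T.orderEmbOfFin hcard with hx
  have hxs : ∀ i, x i ∈ ν.support := fun i => by
    have : x i ∈ T := Finset.orderEmbOfFin_mem T hcard i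
    exact hfin.mem_toFinset.1 this
  have hae : ∀ᵐ v ∂ν, v ∈ (T : Set I) := by
    have h1 : ∀ᵐ v ∂ν, v ∈ ν.support := Measure.support_mem_ae
    filter_upwards [h1] with v hv
    exact hfin.mem_toFinset.2 hv
  have hres : ν.restrict (T : Set I) = ν := Measure.restrict_eq_self_of_ae_mem hae
  have hint : ∀ f : I → ℝ, ∫ v, f v ∂ν = ∑ i, ν.real {x i} * f (x i) := by
    intro f
    have h1 : ∫ v, f v ∂ν = ∫ v in (T : Set I), f v ∂ν := by rw [hres]
    have h2 : IntegrableOn f (T : Set I) ν := IntegrableOn.finset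
    rw [h1, setIntegral_finset T h2]
    have h4 : T = Finset.univ.image x := (Finset.image_orderEmbOfFin_univ T hcard).symm
    conv_lhs => rw [h4]
    rw [Finset.sum_image fun i _ j _ hij => x.injective hij]
    exact Finset.sum_congr rfl fun i _ => by rw [smul_eq_mul]
  refine ⟨fun i => ν.real {x i}, x, ?_, ?_, x.strictMono, hxs, hint⟩
  · intro i
    have h5 : 0 < ν ((T.erase (x i) : Finset I) : Set I)ᶜ := by
      refine (Measure.mem_support_iff_forall (x i)).1 (hxs i) _ ?_
      refine IsOpen.mem_nhds ?_ ?_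
      · exact (Finset.finite_toSet _).isClosed.isOpen_compl
      · simp
    have h6 : ν (T : Set I)ᶜ = 0 := hae
    have h7 : ((T.erase (x i) : Finset I) : Set I)ᶜ ⊆ {x i} ∪ (T : Set I)ᶜ := by
      intro v hv
      by_cases hvT : v ∈ T
      · left
        by_contra hne
        exact hv (Finset.mem_coe.2 (Finset.mem_erase.2 ⟨hne, hvT⟩))
      · exact Or.inr hvT
    have h8 : 0 < ν {x i} := by
      refine pos_iff_ne_zero.2 fun h0 => ?_
      have h9 := (measure_mono (μ := ν) h7).trans (measure_union_le {x i} (T : Set I)ᶜ)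
      rw [h0, h6, add_zero] at h9
      exact absurd h5 (not_lt.2 h9)
    exact ENNReal.toReal_pos h8.ne' (measure_ne_top _ _)
  · have h10 := hint fun _ => 1
    simpa using h10.symm

theorem triOfSupport : TriOfSupport := by
  intro β lam C ε ν hprob hβ hC hε KEY hfix h3
  obtain ⟨w, x, hw, hws, hx, hxs, hint⟩ := exists_fl ν h3
  set y : Fin 3 → ℝ := fun i => 2 * β * (x i : ℝ) + lam with hy
  have hb : 0 < 2 * β := by linarith
  have harg : ∀ u v : I, arg 2 β lam (u, v) =
      (2 * β * (u : ℝ) + lam) + (2 * β * (v : ℝ) + lam) := by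
    intro u v
    unfold arg pot
    simp only [Nat.cast_ofNat, Nat.add_one_sub_one, pow_one]
    ring
  have cL : Continuous fun v : I × I => L (arg 2 β lam v) :=
    continuous_L.comp (continuous_arg 2 β lam)
  have cS : Continuous fun v : I × I => sigmoid (arg 2 β lam v) :=
    continuous_sigmoid.comp (continuous_arg 2 β lam)
  have cP : Continuous fun x : I => (((2 : ℕ) : ℝ) - 1) * β * (x : ℝ) ^ 2 := by fun_prop
  have hint2 : ∀ f : I × I → ℝ, Continuous f →
      ∫ v, f v ∂(ν.prod ν) = ∑ i, ∑ j, w i * w j * f (x i, x j) := by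
    intro f hf
    rw [int_prod_eq ν hf, hint]
    refine Finset.sum_congr rfl fun i _ => ?_
    rw [hint, Finset.mul_sum]
    exact Finset.sum_congr rfl fun j _ => by ring
  have hquad : ∀ u : ℝ, (((2 : ℕ) : ℝ) - 1) * β * u ^ 2 =
      ((2 * β * u + lam) - lam) ^ 2 / (2 * (2 * β)) := by
    intro u
    field_simp
    ring
  have hJν : (1 / 2) * ∫ w, L (arg 2 β lam w) ∂(ν.prod ν)
      - ∫ x, (((2 : ℕ) : ℝ) - 1) * β * (x : ℝ) ^ 2 ∂ν = Jf (2 * β) lam w y := by
    rw [hint2 _ cL, hint]
    unfold Jf
    rw [Finset.sum_div]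
    congr 1
    · congr 1
      refine Finset.sum_congr rfl fun i _ => Finset.sum_congr rfl fun j _ => ?_
      rw [harg]
    · refine Finset.sum_congr rfl fun i _ => ?_
      rw [hquad, mul_div_assoc]
  have hEν : Ef w y = ε := by
    rw [← hε, hint2 _ cS]
    unfold Ef
    refine Finset.sum_congr rfl fun i _ => Finset.sum_congr rfl fun j _ => ?_
    rw [harg]
  have hfix' : ∀ i, (x i : ℝ) = ∑ j, w j * sigmoid (y i + y j) := by
    intro i
    rw [hfix (x i) (hxs i), hint]
    refine Finset.sum_congr rfl fun j _ => ?_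
    rw [harg]
  have hx0 : ∀ i, 0 < (x i : ℝ) := fun i => by
    rw [hfix' i]
    exact Finset.sum_pos (fun j _ => mul_pos (hw j) (sigmoid_pos _)) ⟨0, Finset.mem_univ _⟩
  have hx1 : ∀ i, (x i : ℝ) < 1 := fun i => by
    rw [hfix' i, ← hws]
    refine Finset.sum_lt_sum_of_nonempty ⟨0, Finset.mem_univ _⟩ fun j _ => ?_
    have := mul_lt_mul_of_pos_left (sigmoid_lt_one (y i + y j)) (hw j)
    linarith
  have hFK : FK (2 * β) lam C w y :=
    { bpos := hb
      C0 := hC
      wpos := hw
      wsum := hws
      h01 := by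
        have h4 : (x 0 : ℝ) < x 1 := hx (by decide)
        have := mul_lt_mul_of_pos_left h4 hb
        simp only [hy]
        linarith
      h12 := by
        have h4 : (x 1 : ℝ) < x 2 := hx (by decide)
        have := mul_lt_mul_of_pos_left h4 hb
        simp only [hy]
        linarith
      rng := fun i => by
        have h4 := mul_pos hb (hx0 i)
        have h5 := mul_lt_mul_of_pos_left (hx1 i) hb
        simp only [hy]
        constructor <;> linarith
      fix := fun i => by
        rw [← hfix' i]
        simp only [hy]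
        ring
      key := fun n a Y ha hs hY => by
        have hz0 : ∀ i, 0 ≤ (Y i - lam) / (2 * β) := fun i =>
          div_nonneg (by linarith [(hY i).1]) hb.le
        have hz1 : ∀ i, (Y i - lam) / (2 * β) ≤ 1 := fun i => by
          rw [div_le_one hb]
          linarith [(hY i).2]
        set z : Fin n → I := fun i => ⟨(Y i - lam) / (2 * β), hz0 i, hz1 i⟩ with hz
        have hzY : ∀ i, 2 * β * (z i : ℝ) + lam = Y i := fun i => by
          simp only [hz]
          field_simp
          ring
        have hp := fl_prob ha hs z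
        have h4 := KEY (fl a z) hp
        rw [hJν, int_prod_fl ha hs z cL, int_fl ha z cP, int_prod_fl ha hs z cS, ← hEν] at h4
        have h5 : ∑ i, ∑ j, a i * a j * L (arg 2 β lam (z i, z j)) =
            ∑ i, ∑ j, a i * a j * L (Y i + Y j) := by
          refine Finset.sum_congr rfl fun i _ => Finset.sum_congr rfl fun j _ => ?_
          rw [harg, hzY, hzY]
        have h6 : ∑ i, ∑ j, a i * a j * sigmoid (arg 2 β lam (z i, z j)) = Ef a Y := by
          unfold Ef
          refine Finset.sum_congr rfl fun i _ => Finset.sum_congr rfl fun j _ => ?_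
          rw [harg, hzY, hzY]
        have h7 : ∑ i, a i * ((((2 : ℕ) : ℝ) - 1) * β * (z i : ℝ) ^ 2) =
            (∑ i, a i * (Y i - lam) ^ 2) / (2 * (2 * β)) := by
          rw [Finset.sum_div]
          refine Finset.sum_congr rfl fun i _ => ?_
          rw [hquad, hzY, mul_div_assoc]
        rw [h5, h6, h7] at h4
        exact h4 }
  exact ⟨_, _, _, _, _, _, hFK.tri⟩

end Pool.Agent.helper26.B3
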