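import Pool.Agent.helper85.B3.Mir

/-!
First restrictions on the data of a tripodal optimizer with `y2 ≤ 0`.
-/

set_option autoImplicit false

namespace Pool.Agent.helper26.B3

open Real Set

theorem hasDerivAt_S (t : ℝ) : HasDerivAt sigmoid (s t) t := hasDerivAt_sigmoid t

theorem hasDerivAt_L (t : ℝ) : HasDerivAt L (sigmoid t) t := by
  have h1 : HasDerivAt (fun x : ℝ => Real.log (1 + Real.exp x)) (Real.exp t / (1 + Real.exp t)) t :=
    ((Real.hasDerivAt_exp t).const_add 1).log (by positivity)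
  have h2 : Real.exp t / (1 + Real.exp t) = sigmoid t := by
    rw [sigmoid_def, Real.exp_neg]
    have h3 := Real.exp_pos t
    field_simp
    ring
  rw [h2] at h1
  exact h1

theorem s_sub (a b : ℝ) : s b - s a = (sigmoid b - sigmoid a) * (1 - sigmoid a - sigmoid b) := by
  unfold s
  ring

/-- `s` increases from `a` to `b` if `b` is closer to `0`. -/
theorem s_lt_s {a b : ℝ} (h : a < b) (h' : a + b < 0) : s a < s b := by
  have h1 : sigmoid a < sigmoid b := sigmoid_lt h
  have h2 : sigmoid b < sigmoid (-a) := sigmoid_lt (by linarith)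
  rw [sigmoid_neg] at h2
  have h3 := s_sub a b
  have h4 : 0 < (sigmoid b - sigmoid a) * (1 - sigmoid a - sigmoid b) :=
    mul_pos (by linarith) (by linarith)
  linarith

theorem s_le_s {a b : ℝ} (h : a ≤ b) (h' : a + b ≤ 0) : s a ≤ s b := by
  have h1 : sigmoid a ≤ sigmoid b := sigmoid_le h
  have h2 : sigmoid b ≤ sigmoid (-a) := sigmoid_le (by linarith)
  rw [sigmoid_neg] at h2
  have h3 := s_sub a b
  have h4 : 0 ≤ (sigmoid b - sigmoid a) * (1 - sigmoid a - sigmoid b) :=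
    mul_nonneg (by linarith) (by linarith)
  linarith

theorem s_pos (t : ℝ) : 0 < s t :=
  mul_pos (sigmoid_pos t) (sub_pos.2 (sigmoid_lt_one t))

theorem s_eq (t : ℝ) : s t = (2 + 2 * Real.cosh t)⁻¹ := by
  unfold s
  rw [PS.one_sub_sigmoid, sigmoid_def, ← mul_inv, Real.cosh_eq]
  have h1 : Real.exp (-t) * Real.exp t = 1 := by rw [← Real.exp_add]; simp
  rw [inv_inj]
  linear_combination h1

/-- `s'` -/
theorem hasDerivAt_s (t : ℝ) : HasDerivAt s (sd t) t := by
  have h := (hasDerivAt_S t).mul ((hasDerivAt_const t (1 : ℝ)).sub (hasDerivAt_S t))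
  have h2 : s t * (1 - sigmoid t) + sigmoid t * (0 - s t) = sd t := by
    unfold sd
    ring
  have h3 : HasDerivAt (fun x => sigmoid x * (1 - sigmoid x))
      (s t * (1 - sigmoid t) + sigmoid t * (0 - s t)) t := h
  rw [h2] at h3
  exact h3

/-- `s''` -/
noncomputable def sdd (t : ℝ) : ℝ := s t * (1 - 6 * s t)

theorem hasDerivAt_sd (t : ℝ) : HasDerivAt sd (sdd t) t := by
  have h := (hasDerivAt_s t).mul ((hasDerivAt_const t (1 : ℝ)).sub ((hasDerivAt_S t).const_mul 2))
  have h2 : sd t * (1 - 2 * sigmoid t) + s t * (0 - 2 * s t) = sdd t := by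
    unfold sd sdd s
    ring
  have h3 : HasDerivAt (fun x => s x * (1 - 2 * sigmoid x))
      (sd t * (1 - 2 * sigmoid t) + s t * (0 - 2 * s t)) t := h
  rw [h2] at h3
  exact h3

/-- the density `∑ m_j s(x + y_j)` -/
noncomputable def D (y1 y2 y3 m1 m2 m3 x : ℝ) : ℝ :=
  m1 * s (x + y1) + m2 * s (x + y2) + m3 * s (x + y3)

theorem hasDerivAt_FS (y1 y2 y3 m1 m2 m3 x : ℝ) :
    HasDerivAt (fun x => m1 * sigmoid (x + y1) + m2 * sigmoid (x + y2) + m3 * sigmoid (x + y3))
      (D y1 y2 y3 m1 m2 m3 x) x := by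
  have h1 := ((hasDerivAt_S (x + y1)).comp_add_const x y1).const_mul m1
  have h2 := ((hasDerivAt_S (x + y2)).comp_add_const x y2).const_mul m2
  have h3 := ((hasDerivAt_S (x + y3)).comp_add_const x y3).const_mul m3
  exact (h1.add h2).add h3

theorem hasDerivAt_D (y1 y2 y3 m1 m2 m3 x : ℝ) :
    HasDerivAt (D y1 y2 y3 m1 m2 m3)
      (m1 * sd (x + y1) + m2 * sd (x + y2) + m3 * sd (x + y3)) x := by
  have h1 := ((hasDerivAt_s (x + y1)).comp_add_const x y1).const_mul m1
  have h2 := ((hasDerivAt_s (x + y2)).comp_add_const x y2).const_mul m2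
  have h3 := ((hasDerivAt_s (x + y3)).comp_add_const x y3).const_mul m3
  exact (h1.add h2).add h3

theorem hasDerivAt_D' (y1 y2 y3 m1 m2 m3 x : ℝ) :
    HasDerivAt (fun x => m1 * sd (x + y1) + m2 * sd (x + y2) + m3 * sd (x + y3))
      (m1 * sdd (x + y1) + m2 * sdd (x + y2) + m3 * sdd (x + y3)) x := by
  have h1 := ((hasDerivAt_sd (x + y1)).comp_add_const x y1).const_mul m1
  have h2 := ((hasDerivAt_sd (x + y2)).comp_add_const x y2).const_mul m2
  have h3 := ((hasDerivAt_sd (x + y3)).comp_add_const x y3).const_mul m3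
  exact (h1.add h2).add h3

/-- If the mean of the density on an interval is `1` then the density is `1` at an inner point. -/
theorem exists_D_eq {y1 y2 y3 m1 m2 m3 a b : ℝ} (hab : a < b)
    (h : m1 * P (a + y1) (b + y1) + m2 * P (a + y2) (b + y2) + m3 * P (a + y3) (b + y3) = b - a) :
    ∃ x ∈ Ioo a b, D y1 y2 y3 m1 m2 m3 x = 1 := by
  obtain ⟨x, hx, hxe⟩ := exists_hasDerivAt_eq_slope
    (fun x => m1 * sigmoid (x + y1) + m2 * sigmoid (x + y2) + m3 * sigmoid (x + y3))
    (fun x => D y1 y2 y3 m1 m2 m3 x) hab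
    (fun x _ => (hasDerivAt_FS y1 y2 y3 m1 m2 m3 x).continuousAt.continuousWithinAt)
    (fun x _ => hasDerivAt_FS y1 y2 y3 m1 m2 m3 x)
  refine ⟨x, hx, ?_⟩
  rw [hxe, div_eq_one_iff_eq (sub_pos.2 hab).ne', ← h]
  unfold P
  ring

variable {y1 y2 y3 m1 m2 m3 : ℝ}

theorem Tri.exists_one (h : Tri y1 y2 y3 m1 m2 m3) :
    (∃ x ∈ Ioo y1 y2, D y1 y2 y3 m1 m2 m3 x = 1) ∧
      ∃ x ∈ Ioo y2 y3, D y1 y2 y3 m1 m2 m3 x = 1 := by
  constructor
  · exact exists_D_eq h.h12 h.E1
  · exact exists_D_eq h.h23 h.E2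

theorem Tri.D_y2_le (h : Tri y1 y2 y3 m1 m2 m3) : D y1 y2 y3 m1 m2 m3 y2 ≤ 1 := h.a2

/-- The upper gap reaches over to the right: `y2 + y3 > 0`. -/
theorem Tri.y2_add_y3_pos (h : Tri y1 y2 y3 m1 m2 m3) (h2 : y2 ≤ 0) : 0 < y2 + y3 := by
  by_contra hcon
  have hc : y2 + y3 ≤ 0 := not_lt.1 hcon
  obtain ⟨⟨x, hx, hD⟩, -⟩ := h.exists_one
  have h12 := h.h12
  have hx2 := hx.2
  have e1 : s (x + y1) < s (y2 + y1) := s_lt_s (by linarith) (by linarith)
  have e2 : s (x + y2) < s (y2 + y2) := s_lt_s (by linarith) (by linarith)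
  have e3 : s (x + y3) < s (y2 + y3) := s_lt_s (by linarith) (by linarith)
  have h3 := h.D_y2_le
  have h4 : D y1 y2 y3 m1 m2 m3 x < D y1 y2 y3 m1 m2 m3 y2 := by
    unfold D
    have f1 := mul_lt_mul_of_pos_left e1 h.m1pos
    have f2 := mul_lt_mul_of_pos_left e2 h.m2pos
    have f3 := mul_lt_mul_of_pos_left e3 h.m3pos
    linarith
  linarith

/-- the trapezoidal rule for `S` on `[c - h, c + h]` minus the integral -/
theorem hasDerivAt_trap (c h : ℝ) :
    HasDerivAt (fun h => h * (sigmoid (c - h) + sigmoid (c + h)) - (L (c + h) - L (c - h)))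
      (h * (s (c + h) - s (c - h))) h := by
  have a1 : HasDerivAt (fun h => sigmoid (c - h)) (-(s (c - h))) h :=
    (hasDerivAt_S (c - h)).comp_const_sub c h
  have a2 : HasDerivAt (fun h => sigmoid (c + h)) (s (c + h)) h :=
    (hasDerivAt_S (c + h)).comp_const_add c h
  have a3 : HasDerivAt (fun h => L (c + h)) (sigmoid (c + h)) h :=
    (hasDerivAt_L (c + h)).comp_const_add c h
  have a4 : HasDerivAt (fun h => L (c - h)) (-(sigmoid (c - h))) h :=
    (hasDerivAt_L (c - h)).comp_const_sub c h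
  have a5 := ((hasDerivAt_id h).mul (a1.add a2)).sub (a3.sub a4)
  have e : 1 * (sigmoid (c - h) + sigmoid (c + h)) + id h * (-(s (c - h)) + s (c + h)) -
      (sigmoid (c + h) - -(sigmoid (c - h))) = h * (s (c + h) - s (c - h)) := by
    simp only [id]
    ring
  rw [← e]
  exact a5

theorem C_eq_trap (a b : ℝ) : C a b =
    (b - a) / 2 * (sigmoid ((a + b) / 2 - (b - a) / 2) + sigmoid ((a + b) / 2 + (b - a) / 2)) -
      (L ((a + b) / 2 + (b - a) / 2) - L ((a + b) / 2 - (b - a) / 2)) := by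
  have h1 : (a + b) / 2 - (b - a) / 2 = a := by ring
  have h2 : (a + b) / 2 + (b - a) / 2 = b := by ring
  rw [h1, h2]
  rfl

theorem C_pos {a b : ℝ} (hab : a < b) (h : a + b < 0) : 0 < C a b := by
  set c := (a + b) / 2 with hc
  have hmono : StrictMonoOn
      (fun h => h * (sigmoid (c - h) + sigmoid (c + h)) - (L (c + h) - L (c - h))) (Ici 0) := by
    refine strictMonoOn_of_deriv_pos (convex_Ici 0) ?_ ?_
    · exact fun x _ => (hasDerivAt_trap c x).continuousAt.continuousWithinAt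
    · intro x hx
      rw [interior_Ici] at hx
      rw [(hasDerivAt_trap c x).deriv]
      have hx0 : 0 < x := hx
      exact mul_pos hx0 (sub_pos.2 (s_lt_s (by linarith) (by linarith)))
  have h1 := hmono (show (0 : ℝ) ∈ Ici (0 : ℝ) from le_refl (0 : ℝ)) (show (b - a) / 2 ∈ Ici (0 : ℝ) from by
    show (0 : ℝ) ≤ (b - a) / 2
    linarith) (by linarith : (0 : ℝ) < (b - a) / 2)
  rw [C_eq_trap, ← hc]
  simpa using h1

theorem C_nonneg {a b : ℝ} (hab : a ≤ b) (h : a + b ≤ 0) : 0 ≤ C a b := by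
  set c := (a + b) / 2 with hc
  have hmono : MonotoneOn
      (fun h => h * (sigmoid (c - h) + sigmoid (c + h)) - (L (c + h) - L (c - h))) (Ici 0) := by
    refine monotoneOn_of_deriv_nonneg (convex_Ici 0) ?_ ?_ ?_
    · exact fun x _ => (hasDerivAt_trap c x).continuousAt.continuousWithinAt
    · exact fun x _ => (hasDerivAt_trap c x).differentiableAt.differentiableWithinAt
    · intro x hx
      rw [interior_Ici] at hx
      rw [(hasDerivAt_trap c x).deriv]
      have hx0 : 0 < x := hx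
      exact mul_nonneg hx0.le (sub_nonneg.2 (s_le_s (by linarith) (by linarith)))
  have h1 := hmono (show (0 : ℝ) ∈ Ici (0 : ℝ) from le_refl (0 : ℝ)) (show (b - a) / 2 ∈ Ici (0 : ℝ) from by
    show (0 : ℝ) ≤ (b - a) / 2
    linarith) (by linarith : (0 : ℝ) ≤ (b - a) / 2)
  rw [C_eq_trap, ← hc]
  simpa using h1

/-- `y1 + y2 + 2 y3 > 0` -/
theorem Tri.sum_pos (h : Tri y1 y2 y3 m1 m2 m3) (h2 : y2 ≤ 0) : 0 < y1 + y2 + 2 * y3 := by
  by_contra hcon
  have hc : y1 + y2 + 2 * y3 ≤ 0 := not_lt.1 hcon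
  have h12 := h.h12
  have c1 : 0 < C (y1 + y1) (y2 + y1) := C_pos (by linarith) (by linarith)
  have c2 : 0 < C (y1 + y2) (y2 + y2) := C_pos (by linarith) (by linarith)
  have c3 : 0 ≤ C (y1 + y3) (y2 + y3) := C_nonneg (by linarith) (by linarith)
  have hA := h.A1
  have f1 := mul_pos h.m1pos c1
  have f2 := mul_pos h.m2pos c2
  have f3 := mul_nonneg h.m3pos.le c3
  linarith

theorem sdd_neg {T t : ℝ} (hT : Real.cosh T ≤ 2) (ht : |t| < |T|) : sdd t < 0 := by
  have h1 : Real.cosh t < 2 := lt_of_lt_of_le (Real.cosh_lt_cosh.2 ht) hT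
  have h2 : 1 / 6 < s t := by
    rw [s_eq, one_div]
    have h3 : 0 < Real.cosh t := Real.cosh_pos t
    exact inv_strictAnti₀ (by linarith) (by linarith)
  unfold sdd
  exact mul_neg_of_pos_of_neg (s_pos t) (by linarith)

/-- There are no data with all arguments in the interval where `s` is concave. -/
theorem Tri.not_small (h : Tri y1 y2 y3 m1 m2 m3) {T : ℝ} (hT0 : 0 ≤ T) (hT : Real.cosh T ≤ 2)
    (h1 : -T ≤ 2 * y1) (h3 : 2 * y3 ≤ T) : False := by
  obtain ⟨⟨x, hx, hDx⟩, ⟨z, hz, hDz⟩⟩ := h.exists_one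
  have h12 := h.h12
  have h23 := h.h23
  have hconc : StrictConcaveOn ℝ (Icc y1 y3) (D y1 y2 y3 m1 m2 m3) := by
    refine strictConcaveOn_of_deriv2_neg (convex_Icc y1 y3) ?_ ?_
    · exact fun x _ => (hasDerivAt_D y1 y2 y3 m1 m2 m3 x).continuousAt.continuousWithinAt
    · intro t ht
      rw [interior_Icc] at ht
      have hd1 : deriv (D y1 y2 y3 m1 m2 m3) =
          fun x => m1 * sd (x + y1) + m2 * sd (x + y2) + m3 * sd (x + y3) := by
        funext x
        exact (hasDerivAt_D y1 y2 y3 m1 m2 m3 x).deriv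
      have hd2 : (deriv^[2] (D y1 y2 y3 m1 m2 m3)) t =
          m1 * sdd (t + y1) + m2 * sdd (t + y2) + m3 * sdd (t + y3) := by
        show deriv (deriv (D y1 y2 y3 m1 m2 m3)) t = _
        rw [hd1]
        exact (hasDerivAt_D' y1 y2 y3 m1 m2 m3 t).deriv
      rw [hd2]
      have ht1 := ht.1
      have ht2 := ht.2
      have habs : ∀ y, y1 ≤ y → y ≤ y3 → |t + y| < |T| := by
        intro y hy1 hy3
        rw [abs_of_nonneg hT0, abs_lt]
        constructor
        · linarith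
        · linarith
      have f1 := mul_neg_of_pos_of_neg h.m1pos (sdd_neg hT (habs y1 le_rfl (by linarith)))
      have f2 := mul_neg_of_pos_of_neg h.m2pos (sdd_neg hT (habs y2 h12.le h23.le))
      have f3 := mul_neg_of_pos_of_neg h.m3pos (sdd_neg hT (habs y3 (by linarith) le_rfl))
      linarith
  have hxz : x < z := hx.2.trans hz.1
  have hmem1 : x ∈ Icc y1 y3 := ⟨hx.1.le, by linarith [hx.2]⟩
  have hmem2 : z ∈ Icc y1 y3 := ⟨by linarith [hz.1], hz.2.le⟩
  have hopen : y2 ∈ openSegment ℝ x z := by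
    rw [openSegment_eq_Ioo hxz]
    exact ⟨hx.2, hz.1⟩
  have h5 := hconc.lt_on_openSegment hmem1 hmem2 hxz.ne hopen
  rw [hDx, hDz, min_self] at h5
  exact absurd h.D_y2_le (not_le.2 h5)

/-- There are no data with all arguments `x + y_j` in `[-1.3, 1.3]`. -/
theorem Tri.not_small' (h : Tri y1 y2 y3 m1 m2 m3) (h1 : -1.3 ≤ 2 * y1) (h3 : 2 * y3 ≤ 1.3) :
    False := by
  refine h.not_small (T := 1.3) (by norm_num) ?_ h1 h3
  rw [Real.cosh_eq]
  have e1 : Real.exp 1.3 ≤ 3.7 := by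
    have h4 : Real.exp 1.3 = Real.exp 1 * Real.exp 0.3 := by
      rw [← Real.exp_add]
      norm_num
    have h5 := Real.exp_one_lt_d9
    have h6 : Real.exp 0.3 ≤ 1.36 := by
      have h7 := Real.exp_bound' (x := 0.3) (by norm_num) (by norm_num) (n := 3) (by norm_num)
      refine h7.trans ?_
      norm_num [Finset.sum_range_succ, Nat.factorial]
    rw [h4]
    nlinarith [Real.exp_pos 0.3, Real.exp_pos 1]
  have e2 : Real.exp (-1.3) ≤ 0.3 := by
    have h8 : Real.exp (-1.3) * Real.exp 1.3 = 1 := by rw [← Real.exp_add]; norm_num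
    have h9 : 3.5 ≤ Real.exp 1.3 := by
      have h4 : Real.exp 1.3 = Real.exp 1 * Real.exp 0.3 := by
        rw [← Real.exp_add]
        norm_num
      have h5 := Real.exp_one_gt_d9
      have h6 : 1 + 0.3 ≤ Real.exp 0.3 := by linarith [Real.add_one_le_exp (0.3 : ℝ)]
      rw [h4]
      nlinarith [Real.exp_pos 0.3, Real.exp_pos 1]
    by_contra hcon
    have h10 := not_le.1 hcon
    nlinarith [Real.exp_pos 1.3, Real.exp_pos (-1.3)]
  linarith

end Pool.Agent.helper26.B3
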