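import Pool.Agent.helper85.B3.Path

/-!
From the comparison inequality for finite laws to the data `Tri`.
-/

set_option autoImplicit false

namespace Pool.Agent.helper26.B3

open Real Set Filter Topology

section general

variable (b lam : ℝ) {n : ℕ} (a α Y δ : Fin n → ℝ)

theorem sum_symm (f : Fin n → Fin n → ℝ) (hf : ∀ i j, f i j = f j i) (p q : Fin n → ℝ) :
    ∑ i, ∑ j, p i * q j * f i j = ∑ i, ∑ j, q i * p j * f i j := by
  rw [Finset.sum_comm]
  refine Finset.sum_congr rfl fun i _ => Finset.sum_congr rfl fun j _ => ?_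
  rw [hf j i]
  ring

theorem J1_zero : J1 b lam a α Y δ 0 =
    ∑ i, α i * (∑ j, a j * L (Y i + Y j) - (Y i - lam) ^ 2 / (2 * b)) +
      ∑ i, a i * δ i * (∑ j, a j * sigmoid (Y i + Y j) - (Y i - lam) / b) := by
  have h1 : ∑ i, ∑ j, T1' (a i) (α i) (a j) (α j) (Y i + Y j) (δ i + δ j) 0 =
      2 * (∑ i, ∑ j, α i * a j * L (Y i + Y j)) +
        2 * (∑ i, ∑ j, (a i * δ i) * a j * sigmoid (Y i + Y j)) := by
    have e1 := sum_symm (fun i j => L (Y i + Y j)) (fun i j => by rw [add_comm]) a α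
    have e2 := sum_symm (fun i j => sigmoid (Y i + Y j)) (fun i j => by rw [add_comm]) a
      (fun i => a i * δ i)
    have e3 : ∑ i, ∑ j, T1' (a i) (α i) (a j) (α j) (Y i + Y j) (δ i + δ j) 0 =
        (∑ i, ∑ j, α i * a j * L (Y i + Y j)) + (∑ i, ∑ j, a i * α j * L (Y i + Y j)) +
        ((∑ i, ∑ j, (a i * δ i) * a j * sigmoid (Y i + Y j)) +
          ∑ i, ∑ j, a i * (a j * δ j) * sigmoid (Y i + Y j)) := by
      simp only [← Finset.sum_add_distrib]
      refine Finset.sum_congr rfl fun i _ => Finset.sum_congr rfl fun j _ => ?_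
      unfold T1'
      simp only [zero_mul, add_zero]
      ring
    rw [e3, e1, e2]
    ring
  have h2 : ∑ i, U1 (a i) (α i) (Y i - lam) (δ i) 0 =
      (∑ i, α i * (Y i - lam) ^ 2) + 2 * ∑ i, a i * δ i * (Y i - lam) := by
    rw [Finset.mul_sum, ← Finset.sum_add_distrib]
    refine Finset.sum_congr rfl fun i _ => ?_
    unfold U1
    simp only [zero_mul, add_zero]
    ring
  unfold J1
  rw [h1, h2]
  have h3 : ∑ i, α i * (∑ j, a j * L (Y i + Y j) - (Y i - lam) ^ 2 / (2 * b)) =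
      (∑ i, ∑ j, α i * a j * L (Y i + Y j)) - (∑ i, α i * (Y i - lam) ^ 2) / (2 * b) := by
    rw [Finset.sum_div, ← Finset.sum_sub_distrib]
    refine Finset.sum_congr rfl fun i _ => ?_
    rw [mul_sub, Finset.mul_sum]
    congr 1
    · exact Finset.sum_congr rfl fun j _ => by ring
    · ring
  have h4 : ∑ i, a i * δ i * (∑ j, a j * sigmoid (Y i + Y j) - (Y i - lam) / b) =
      (∑ i, ∑ j, (a i * δ i) * a j * sigmoid (Y i + Y j)) -
        (∑ i, a i * δ i * (Y i - lam)) / b := by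
    rw [Finset.sum_div, ← Finset.sum_sub_distrib]
    refine Finset.sum_congr rfl fun i _ => ?_
    rw [mul_sub, Finset.mul_sum]
    congr 1
    · exact Finset.sum_congr rfl fun j _ => by ring
    · ring
  rw [h3, h4]
  rw [add_div]
  have h5 : 2 * (∑ i, a i * δ i * (Y i - lam)) / (2 * b) =
      (∑ i, a i * δ i * (Y i - lam)) / b := by
    rw [mul_div_mul_left _ _ (by norm_num : (2 : ℝ) ≠ 0)]
  rw [h5]
  ring

theorem E1_eq : E1 a α Y δ = 2 * (∑ i, α i * ∑ j, a j * sigmoid (Y i + Y j)) +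
    2 * (∑ i, a i * δ i * ∑ j, a j * s (Y i + Y j)) := by
  have e1 := sum_symm (fun i j => sigmoid (Y i + Y j)) (fun i j => by rw [add_comm]) a α
  have e2 := sum_symm (fun i j => s (Y i + Y j)) (fun i j => by rw [add_comm]) a
    (fun i => a i * δ i)
  have e3 : E1 a α Y δ =
      (∑ i, ∑ j, α i * a j * sigmoid (Y i + Y j)) + (∑ i, ∑ j, a i * α j * sigmoid (Y i + Y j)) +
      ((∑ i, ∑ j, (a i * δ i) * a j * s (Y i + Y j)) +
        ∑ i, ∑ j, a i * (a j * δ j) * s (Y i + Y j)) := by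
    unfold E1
    simp only [← Finset.sum_add_distrib]
    refine Finset.sum_congr rfl fun i _ => Finset.sum_congr rfl fun j _ => ?_
    ring
  rw [e3, e1, e2]
  have h1 : ∑ i, α i * ∑ j, a j * sigmoid (Y i + Y j) =
      ∑ i, ∑ j, α i * a j * sigmoid (Y i + Y j) := by
    refine Finset.sum_congr rfl fun i _ => ?_
    rw [Finset.mul_sum]
    exact Finset.sum_congr rfl fun j _ => by ring
  have h2 : ∑ i, a i * δ i * ∑ j, a j * s (Y i + Y j) =
      ∑ i, ∑ j, (a i * δ i) * a j * s (Y i + Y j) := by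
    refine Finset.sum_congr rfl fun i _ => ?_
    rw [Finset.mul_sum]
    exact Finset.sum_congr rfl fun j _ => by ring
  rw [h1, h2]
  ring

end general

/-- The comparison inequality for finite laws, at a law with three atoms. -/
structure FK (b lam C : ℝ) (w y : Fin 3 → ℝ) : Prop where
  bpos : 0 < b
  C0 : 0 ≤ C
  wpos : ∀ i, 0 < w i
  wsum : ∑ i, w i = 1
  h01 : y 0 < y 1
  h12 : y 1 < y 2
  rng : ∀ i, lam < y i ∧ y i < lam + b
  fix : ∀ i, y i - lam = b * ∑ j, w j * sigmoid (y i + y j)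
  key : ∀ (n : ℕ) (a Y : Fin n → ℝ), (∀ i, 0 ≤ a i) → ∑ i, a i = 1 →
    (∀ i, lam ≤ Y i ∧ Y i ≤ lam + b) →
    Jf b lam a Y ≤ Jf b lam w y + C * (Ef a Y - Ef w y) ^ 2

variable {b lam C : ℝ} {w y : Fin 3 → ℝ}

/-- the potential -/
noncomputable def ps (b lam : ℝ) (w y : Fin 3 → ℝ) (x : ℝ) : ℝ :=
  ∑ j, w j * L (x + y j) - (x - lam) ^ 2 / (2 * b)

/-- The second order condition along an admissible path of laws with three atoms. -/
theorem FK.path (h : FK b lam C w y) (α δ : Fin 3 → ℝ) (hα : ∑ i, α i = 0)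
    (h1 : J1 b lam w α y δ 0 = 0) (hE : E1 w α y δ = 0) : J2 b lam w α y δ ≤ 0 := by
  refine second_order (J := J0 b lam w α y δ) (J' := J1 b lam w α y δ) (E := E0 w α y δ)
    (C := C) (fun t => J0_deriv b lam w α y δ t) h1 (J1_deriv b lam w α y δ) ?_ h.C0 ?_
  · have := E0_deriv w α y δ
    rw [hE] at this
    exact this
  · have c1 : ∀ i, ∀ᶠ t in 𝓝[>] (0 : ℝ), 0 ≤ w i + t * α i := fun i => by
      have hc : Continuous fun t : ℝ => w i + t * α i := by fun_prop
      have ht : Tendsto (fun t : ℝ => w i + t * α i) (𝓝[>] 0) (𝓝 (w i + 0 * α i)) :=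
        (hc.tendsto 0).mono_left nhdsWithin_le_nhds
      rw [zero_mul, add_zero] at ht
      filter_upwards [ht.eventually (lt_mem_nhds (h.wpos i))] with t ht using ht.le
    have c2 : ∀ i, ∀ᶠ t in 𝓝[>] (0 : ℝ), lam ≤ y i + t * δ i ∧ y i + t * δ i ≤ lam + b :=
      fun i => by
        have hc : Continuous fun t : ℝ => y i + t * δ i := by fun_prop
        have ht : Tendsto (fun t : ℝ => y i + t * δ i) (𝓝[>] 0) (𝓝 (y i + 0 * δ i)) :=
          (hc.tendsto 0).mono_left nhdsWithin_le_nhds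
        rw [zero_mul, add_zero] at ht
        filter_upwards [ht.eventually (lt_mem_nhds (h.rng i).1),
          ht.eventually (gt_mem_nhds (h.rng i).2)] with t ht1 ht2 using ⟨ht1.le, ht2.le⟩
    filter_upwards [eventually_all.2 c1, eventually_all.2 c2] with t ht1 ht2
    rw [← J0_eq, ← E0_eq, J0_zero, E0_zero]
    refine h.key 3 _ _ ht1 ?_ ht2
    rw [Finset.sum_add_distrib, ← Finset.mul_sum, hα, mul_zero, add_zero, h.wsum]

/-- The potential is maximal at the atoms. -/
theorem FK.ps_le (h : FK b lam C w y) {x : ℝ} (hx : lam ≤ x ∧ x ≤ lam + b) (i : Fin 3) :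
    ps b lam w y x ≤ ps b lam w y (y i) := by
  set c : Fin 3 → ℝ := Pi.single i 1 with hc
  have hc0 : ∀ k, 0 ≤ c k := fun k => by
    rw [hc]
    by_cases hk : k = i
    · rw [hk, Pi.single_eq_same]; norm_num
    · rw [Pi.single_eq_of_ne hk]
  have hcs : ∑ k, c k = 1 := by
    rw [hc, Finset.sum_pi_single']
    simp
  have hcp : ∀ f : Fin 3 → ℝ, ∑ k, c k * f k = f i := fun f => by
    rw [hc]
    simp [Pi.single_apply, Finset.sum_ite_eq']
  have hfo := first_order (J := J0 b lam ![w 0, w 1, w 2, 0] ![-c 0, -c 1, -c 2, 1]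
      ![y 0, y 1, y 2, x] (fun _ => 0)) (E := E0 ![w 0, w 1, w 2, 0] ![-c 0, -c 1, -c 2, 1]
      ![y 0, y 1, y 2, x] (fun _ => 0)) (C := C)
    (J0_deriv b lam ![w 0, w 1, w 2, 0] ![-c 0, -c 1, -c 2, 1] ![y 0, y 1, y 2, x] (fun _ => 0) 0)
    (E0_deriv ![w 0, w 1, w 2, 0] ![-c 0, -c 1, -c 2, 1] ![y 0, y 1, y 2, x] (fun _ => 0)) ?_
  · rw [J1_zero] at hfo
    have e := hcp fun k => ps b lam w y (y k)
    simp only [Fin.sum_univ_three, ps] at e
    simp only [Fin.sum_univ_four, Matrix.cons_val_zero, Matrix.cons_val_one,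
      Matrix.cons_val_two, Matrix.cons_val_three, Matrix.head_cons, Matrix.tail_cons,
      mul_zero, zero_mul, add_zero, one_mul] at hfo
    simp only [Fin.sum_univ_three, ps]
    have hcs' : c 0 + c 1 + c 2 = 1 := by
      rw [← hcs, Fin.sum_univ_three]
    linarith
  · have c1 : ∀ k : Fin 3, ∀ᶠ t in 𝓝[>] (0 : ℝ), 0 ≤ w k + t * (-c k) := fun k => by
      have hcont : Continuous fun t : ℝ => w k + t * (-c k) := by fun_prop
      have ht : Tendsto (fun t : ℝ => w k + t * (-c k)) (𝓝[>] 0) (𝓝 (w k + 0 * (-c k))) :=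
        (hcont.tendsto 0).mono_left nhdsWithin_le_nhds
      rw [zero_mul, add_zero] at ht
      filter_upwards [ht.eventually (lt_mem_nhds (h.wpos k))] with t ht using ht.le
    filter_upwards [eventually_all.2 c1, self_mem_nhdsWithin] with t ht1 ht0
    have ht0' : 0 < t := ht0
    have eJ : J0 b lam ![w 0, w 1, w 2, 0] ![-c 0, -c 1, -c 2, 1] ![y 0, y 1, y 2, x]
        (fun _ => 0) 0 = Jf b lam w y := by
      rw [J0_zero]
      unfold Jf
      simp [Fin.sum_univ_four, Fin.sum_univ_three]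
    have eE : E0 ![w 0, w 1, w 2, 0] ![-c 0, -c 1, -c 2, 1] ![y 0, y 1, y 2, x]
        (fun _ => 0) 0 = Ef w y := by
      rw [E0_zero]
      unfold Ef
      simp [Fin.sum_univ_four, Fin.sum_univ_three]
    rw [eJ, eE, ← J0_eq, ← E0_eq]
    refine h.key 4 _ _ ?_ ?_ ?_
    · intro k
      fin_cases k
      · simpa using ht1 0
      · simpa using ht1 1
      · simpa using ht1 2
      · simpa using ht0'.le
    · have e1 : w 0 + w 1 + w 2 = 1 := by rw [← h.wsum, Fin.sum_univ_three]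
      have e2 : c 0 + c 1 + c 2 = 1 := by rw [← hcs, Fin.sum_univ_three]
      simp only [Fin.sum_univ_four, Matrix.cons_val]
      linear_combination e1 - t * e2
    · intro k
      fin_cases k
      · simpa using ⟨(h.rng 0).1.le, (h.rng 0).2.le⟩
      · simpa using ⟨(h.rng 1).1.le, (h.rng 1).2.le⟩
      · simpa using ⟨(h.rng 2).1.le, (h.rng 2).2.le⟩
      · simpa using hx

theorem FK.ps_eq (h : FK b lam C w y) (i j : Fin 3) : ps b lam w y (y i) = ps b lam w y (y j) :=
  le_antisymm (h.ps_le ⟨(h.rng i).1.le, (h.rng i).2.le⟩ j)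
    (h.ps_le ⟨(h.rng j).1.le, (h.rng j).2.le⟩ i)

end Pool.Agent.helper26.B3
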