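import Pool.Agent.helper85.B3.Reg

/-!
Second order conditions along paths of finite laws: weights `a i + t α i`, positions `Y i + t δ i`.
-/

set_option autoImplicit false

namespace Pool.Agent.helper26.B3

open Real Set Filter Topology

/-! ### One variable -/

/-- First order: if `J t ≤ J 0 + C (E t - E 0)²` for small `t > 0` then `J'(0) ≤ 0`. -/
theorem first_order {J E : ℝ → ℝ} {J1 E1 C : ℝ} (hJ : HasDerivAt J J1 0) (hE : HasDerivAt E E1 0)
    (hkey : ∀ᶠ t in 𝓝[>] (0 : ℝ), J t ≤ J 0 + C * (E t - E 0) ^ 2) : J1 ≤ 0 := by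
  have hh : HasDerivAt (fun t => J t - C * (E t - E 0) ^ 2) J1 0 := by
    have h1 := hJ.sub (((hE.sub_const (E 0)).pow 2).const_mul C)
    have e : J1 - C * ((2 : ℕ) * (E 0 - E 0) ^ (2 - 1) * E1) = J1 := by simp
    rw [e] at h1
    exact h1
  have hs := hasDerivAt_iff_tendsto_slope.1 hh
  have hs2 : Tendsto (slope (fun t => J t - C * (E t - E 0) ^ 2) 0) (𝓝[>] 0) (𝓝 J1) :=
    hs.mono_left (nhdsWithin_mono 0 fun t (ht : 0 < t) => ne_of_gt ht)
  refine le_of_tendsto hs2 ?_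
  filter_upwards [hkey, self_mem_nhdsWithin] with t ht ht0
  have ht0' : 0 < t := ht0
  rw [slope_def_field]
  refine div_nonpos_of_nonpos_of_nonneg ?_ (by linarith)
  simp only [sub_self]
  linarith

/-- Second order: if `J'(0) = 0`, `E'(0) = 0` and `J t ≤ J 0 + C (E t - E 0)²` for small `t > 0` then
`J''(0) ≤ 0`. -/
theorem second_order {J J' E : ℝ → ℝ} {J2 C : ℝ} (hJ : ∀ t, HasDerivAt J (J' t) t)
    (hJ0 : J' 0 = 0) (hJ2 : HasDerivAt J' J2 0) (hE : HasDerivAt E 0 0) (hC : 0 ≤ C)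
    (hkey : ∀ᶠ t in 𝓝[>] (0 : ℝ), J t ≤ J 0 + C * (E t - E 0) ^ 2) : J2 ≤ 0 := by
  by_contra hcon
  have hpos := not_le.1 hcon
  -- `J'(t) ≥ (J2 / 2) t`
  have hs := hasDerivAt_iff_tendsto_slope.1 hJ2
  have hs2 : Tendsto (slope J' 0) (𝓝[>] 0) (𝓝 J2) :=
    hs.mono_left (nhdsWithin_mono 0 fun t (ht : 0 < t) => ne_of_gt ht)
  have h1 : ∀ᶠ t in 𝓝[>] (0 : ℝ), J2 / 2 < slope J' 0 t :=
    hs2.eventually (lt_mem_nhds (by linarith))
  -- `|E t - E 0| ≤ η t`
  obtain ⟨η, hη0, hη⟩ : ∃ η : ℝ, 0 < η ∧ C * η ^ 2 ≤ J2 / 8 := by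
    refine ⟨Real.sqrt (J2 / (8 * (C + 1))), Real.sqrt_pos.2 (by positivity), ?_⟩
    rw [Real.sq_sqrt (by positivity)]
    have : C * (J2 / (8 * (C + 1))) ≤ (C + 1) * (J2 / (8 * (C + 1))) :=
      mul_le_mul_of_nonneg_right (by linarith) (by positivity)
    refine this.trans (le_of_eq ?_)
    field_simp
  have hsE := hasDerivAt_iff_tendsto_slope.1 hE
  have hsE2 : Tendsto (slope E 0) (𝓝[>] 0) (𝓝 0) :=
    hsE.mono_left (nhdsWithin_mono 0 fun t (ht : 0 < t) => ne_of_gt ht)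
  have h2 : ∀ᶠ t in 𝓝[>] (0 : ℝ), |slope E 0 t| < η := by
    have := hsE2.abs
    rw [abs_zero] at this
    exact this.eventually (gt_mem_nhds hη0)
  obtain ⟨u, hu, hu2⟩ := (mem_nhdsGT_iff_exists_Ioo_subset).1 (h1.and (h2.and hkey))
  have hu0 : (0 : ℝ) < u := hu
  have hmono : MonotoneOn (fun t => J t - J2 / 4 * t ^ 2) (Icc 0 (u / 2)) := by
    refine monotoneOn_of_deriv_nonneg (convex_Icc _ _) ?_ ?_ ?_
    · exact fun x _ => ((hJ x).sub (((hasDerivAt_id x).pow 2).const_mul (J2 / 4))).continuousAt.continuousWithinAt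
    · exact fun x _ => ((hJ x).sub (((hasDerivAt_id x).pow 2).const_mul (J2 / 4))).differentiableAt.differentiableWithinAt
    · intro x hx
      rw [interior_Icc] at hx
      have hx1 : x ∈ Ioo 0 u := ⟨hx.1, by linarith [hx.2]⟩
      have h3 := (hu2 hx1).1
      have hd : deriv (fun t => J t - J2 / 4 * t ^ 2) x = J' x - J2 / 4 * (2 * x) := by
        have := ((hJ x).sub (((hasDerivAt_id x).pow 2).const_mul (J2 / 4))).deriv
        simp only [id, Nat.cast_ofNat, Nat.add_one_sub_one, pow_one, mul_one] at this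
        exact this
      rw [hd]
      rw [slope_def_field, hJ0, sub_zero, sub_zero, lt_div_iff₀ hx.1] at h3
      linarith
  have hmem : u / 2 ∈ Ioo 0 u := ⟨by linarith, by linarith⟩
  have h4 := hmono (left_mem_Icc.2 (by linarith)) (right_mem_Icc.2 (by linarith))
    (by linarith : (0 : ℝ) ≤ u / 2)
  simp only [ne_eq, OfNat.ofNat_ne_zero, not_false_eq_true, zero_pow, mul_zero, sub_zero] at h4
  obtain ⟨-, h5, h6⟩ := hu2 hmem
  have hmem1 : (0 : ℝ) < u / 2 := hmem.1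
  have h7 : (E (u / 2) - E 0) ^ 2 ≤ η ^ 2 * (u / 2) ^ 2 := by
    rw [slope_def_field, sub_zero, abs_div, abs_of_pos hmem1, div_lt_iff₀ hmem1] at h5
    have h8 := pow_le_pow_left₀ (abs_nonneg _) h5.le 2
    rw [sq_abs, mul_pow] at h8
    exact h8
  have h9 : C * (E (u / 2) - E 0) ^ 2 ≤ J2 / 8 * (u / 2) ^ 2 :=
    calc C * (E (u / 2) - E 0) ^ 2 ≤ C * (η ^ 2 * (u / 2) ^ 2) :=
          mul_le_mul_of_nonneg_left h7 hC
      _ = C * η ^ 2 * (u / 2) ^ 2 := by ring
      _ ≤ J2 / 8 * (u / 2) ^ 2 := mul_le_mul_of_nonneg_right hη (sq_nonneg _)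
  have h10 : 0 < (u / 2) ^ 2 := by positivity
  nlinarith

/-! ### Derivatives of the terms -/

theorem lin_deriv (c k t : ℝ) : HasDerivAt (fun t : ℝ => c + t * k) k t := by
  have h := ((hasDerivAt_id t).mul_const k).const_add c
  rw [one_mul] at h
  exact h

theorem L_lin (z r t : ℝ) : HasDerivAt (fun t : ℝ => L (z + t * r)) (sigmoid (z + t * r) * r) t := by
  have h : HasDerivAt (L ∘ fun t : ℝ => z + t * r) (sigmoid (z + t * r) * r) t :=
    HasDerivAt.comp t (hasDerivAt_L (z + t * r)) (lin_deriv z r t)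
  exact h

theorem S_lin (z r t : ℝ) :
    HasDerivAt (fun t : ℝ => sigmoid (z + t * r)) (s (z + t * r) * r) t := by
  have h : HasDerivAt (sigmoid ∘ fun t : ℝ => z + t * r) (s (z + t * r) * r) t :=
    HasDerivAt.comp t (hasDerivAt_S (z + t * r)) (lin_deriv z r t)
  exact h

/-- one term of the energy -/
noncomputable def T0 (p P q Q z r t : ℝ) : ℝ := (p + t * P) * (q + t * Q) * L (z + t * r)

noncomputable def T1' (p P q Q z r t : ℝ) : ℝ :=
  (P * (q + t * Q) + (p + t * P) * Q) * L (z + t * r) +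
    (p + t * P) * (q + t * Q) * (sigmoid (z + t * r) * r)

noncomputable def TE (p P q Q z r t : ℝ) : ℝ := (p + t * P) * (q + t * Q) * sigmoid (z + t * r)

noncomputable def U0 (p P x d t : ℝ) : ℝ := (p + t * P) * (x + t * d) ^ 2

noncomputable def U1 (p P x d t : ℝ) : ℝ :=
  P * (x + t * d) ^ 2 + (p + t * P) * (2 * (x + t * d) * d)

theorem T0_deriv (p P q Q z r t : ℝ) : HasDerivAt (T0 p P q Q z r) (T1' p P q Q z r t) t := by
  have h := ((lin_deriv p P t).mul (lin_deriv q Q t)).mul (L_lin z r t)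
  exact h

theorem T1_deriv (p P q Q z r : ℝ) : HasDerivAt (T1' p P q Q z r)
    (2 * P * Q * L z + 2 * (P * q + p * Q) * (sigmoid z * r) + p * q * (s z * r ^ 2)) 0 := by
  have h1 := ((((lin_deriv q Q 0).const_mul P).add ((lin_deriv p P 0).mul_const Q)).mul
    (L_lin z r 0))
  have h2 := (((lin_deriv p P 0).mul (lin_deriv q Q 0)).mul ((S_lin z r 0).mul_const r))
  have h3 := h1.add h2
  have e : (P * Q + P * Q) * L (z + 0 * r) +
      (P * (q + 0 * Q) + (p + 0 * P) * Q) * (sigmoid (z + 0 * r) * r) +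
      ((P * (q + 0 * Q) + (p + 0 * P) * Q) * (sigmoid (z + 0 * r) * r) +
        (p + 0 * P) * (q + 0 * Q) * (s (z + 0 * r) * r * r)) =
      2 * P * Q * L z + 2 * (P * q + p * Q) * (sigmoid z * r) + p * q * (s z * r ^ 2) := by
    simp only [zero_mul, add_zero]
    ring
  rw [← e]
  exact h3

theorem TE_deriv (p P q Q z r : ℝ) : HasDerivAt (TE p P q Q z r)
    ((P * q + p * Q) * sigmoid z + p * q * (s z * r)) 0 := by
  have h := ((lin_deriv p P 0).mul (lin_deriv q Q 0)).mul (S_lin z r 0)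
  have e : (P * (q + 0 * Q) + (p + 0 * P) * Q) * sigmoid (z + 0 * r) +
      (p + 0 * P) * (q + 0 * Q) * (s (z + 0 * r) * r) =
      (P * q + p * Q) * sigmoid z + p * q * (s z * r) := by
    simp only [zero_mul, add_zero]
  rw [← e]
  exact h

theorem U0_deriv (p P x d t : ℝ) : HasDerivAt (U0 p P x d) (U1 p P x d t) t := by
  have h := (lin_deriv p P t).mul ((lin_deriv x d t).pow 2)
  have e : P * (x + t * d) ^ 2 + (p + t * P) * ((2 : ℕ) * (x + t * d) ^ (2 - 1) * d) =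
      U1 p P x d t := by
    unfold U1
    simp
  rw [← e]
  exact h

theorem U1_deriv (p P x d : ℝ) :
    HasDerivAt (U1 p P x d) (4 * P * x * d + 2 * p * d ^ 2) 0 := by
  have h1 := ((lin_deriv x d 0).pow 2).const_mul P
  have h2 := (lin_deriv p P 0).mul (((lin_deriv x d 0).const_mul 2).mul_const d)
  have h3 := h1.add h2
  have e : P * ((2 : ℕ) * (x + 0 * d) ^ (2 - 1) * d) +
      (P * (2 * (x + 0 * d) * d) + (p + 0 * P) * (2 * d * d)) =
      4 * P * x * d + 2 * p * d ^ 2 := by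
    simp only [zero_mul, add_zero, Nat.add_one_sub_one, pow_one, Nat.cast_ofNat]
    ring
  rw [← e]
  exact h3

/-! ### Finite laws -/

/-- the energy of the finite law with the weights `a` and the positions `Y` -/
noncomputable def Jf (b lam : ℝ) {n : ℕ} (a Y : Fin n → ℝ) : ℝ :=
  (1 / 2) * (∑ i, ∑ j, a i * a j * L (Y i + Y j)) - (∑ i, a i * (Y i - lam) ^ 2) / (2 * b)

/-- the edge density of the finite law -/
noncomputable def Ef {n : ℕ} (a Y : Fin n → ℝ) : ℝ := ∑ i, ∑ j, a i * a j * sigmoid (Y i + Y j)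

section path

variable (b lam : ℝ) {n : ℕ} (a α Y δ : Fin n → ℝ)

noncomputable def J0 (t : ℝ) : ℝ :=
  (1 / 2) * (∑ i, ∑ j, T0 (a i) (α i) (a j) (α j) (Y i + Y j) (δ i + δ j) t) -
    (∑ i, U0 (a i) (α i) (Y i - lam) (δ i) t) / (2 * b)

noncomputable def J1 (t : ℝ) : ℝ :=
  (1 / 2) * (∑ i, ∑ j, T1' (a i) (α i) (a j) (α j) (Y i + Y j) (δ i + δ j) t) -
    (∑ i, U1 (a i) (α i) (Y i - lam) (δ i) t) / (2 * b)

noncomputable def J2 : ℝ :=
  (1 / 2) * (∑ i, ∑ j, (2 * α i * α j * L (Y i + Y j) +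
      2 * (α i * a j + a i * α j) * (sigmoid (Y i + Y j) * (δ i + δ j)) +
      a i * a j * (s (Y i + Y j) * (δ i + δ j) ^ 2))) -
    (∑ i, (4 * α i * (Y i - lam) * δ i + 2 * a i * δ i ^ 2)) / (2 * b)

noncomputable def E0 (t : ℝ) : ℝ :=
  ∑ i, ∑ j, TE (a i) (α i) (a j) (α j) (Y i + Y j) (δ i + δ j) t

noncomputable def E1 : ℝ :=
  ∑ i, ∑ j, ((α i * a j + a i * α j) * sigmoid (Y i + Y j) +
    a i * a j * (s (Y i + Y j) * (δ i + δ j)))

theorem J0_eq (t : ℝ) :
    Jf b lam (fun i => a i + t * α i) (fun i => Y i + t * δ i) = J0 b lam a α Y δ t := by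
  unfold Jf J0 T0 U0
  congr 2
  · refine Finset.sum_congr rfl fun i _ => Finset.sum_congr rfl fun j _ => ?_
    have e : Y i + t * δ i + (Y j + t * δ j) = Y i + Y j + t * (δ i + δ j) := by ring
    rw [e]
  · refine Finset.sum_congr rfl fun i _ => ?_
    ring

theorem E0_eq (t : ℝ) : Ef (fun i => a i + t * α i) (fun i => Y i + t * δ i) = E0 a α Y δ t := by
  unfold Ef E0 TE
  refine Finset.sum_congr rfl fun i _ => Finset.sum_congr rfl fun j _ => ?_
  have e : Y i + t * δ i + (Y j + t * δ j) = Y i + Y j + t * (δ i + δ j) := by ring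
  rw [e]

theorem J0_zero : J0 b lam a α Y δ 0 = Jf b lam a Y := by
  rw [← J0_eq]
  simp

theorem E0_zero : E0 a α Y δ 0 = Ef a Y := by
  rw [← E0_eq]
  simp

theorem J0_deriv (t : ℝ) : HasDerivAt (J0 b lam a α Y δ) (J1 b lam a α Y δ t) t := by
  have h1 := (HasDerivAt.fun_sum (u := Finset.univ) fun i _ => HasDerivAt.fun_sum
    (u := Finset.univ) fun j _ =>
      T0_deriv (a i) (α i) (a j) (α j) (Y i + Y j) (δ i + δ j) t).const_mul (1 / 2 : ℝ)
  have h2 := (HasDerivAt.fun_sum (u := Finset.univ) fun i _ =>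
    U0_deriv (a i) (α i) (Y i - lam) (δ i) t).div_const (2 * b)
  exact h1.sub h2

theorem J1_deriv : HasDerivAt (J1 b lam a α Y δ) (J2 b lam a α Y δ) 0 := by
  have h1 := (HasDerivAt.fun_sum (u := Finset.univ) fun i _ => HasDerivAt.fun_sum
    (u := Finset.univ) fun j _ =>
      T1_deriv (a i) (α i) (a j) (α j) (Y i + Y j) (δ i + δ j)).const_mul (1 / 2 : ℝ)
  have h2 := (HasDerivAt.fun_sum (u := Finset.univ) fun i _ =>
    U1_deriv (a i) (α i) (Y i - lam) (δ i)).div_const (2 * b)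
  exact h1.sub h2

theorem E0_deriv : HasDerivAt (E0 a α Y δ) (E1 a α Y δ) 0 := by
  exact HasDerivAt.fun_sum (u := Finset.univ) fun i _ => HasDerivAt.fun_sum
    (u := Finset.univ) fun j _ => TE_deriv (a i) (α i) (a j) (α j) (Y i + Y j) (δ i + δ j)

end path

end Pool.Agent.helper26.B3
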