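import Pool.Agent.helper85.B3.Reg

/-!
Regime (i): an upper bound for `-(2 y2)` if `y2 + y3 ≤ 5`.
-/

set_option autoImplicit false

namespace Pool.Agent.helper26.B3

open Real Set

/-- `L / S`: the mean distance to `x` of the density `s` on `(-∞, x)` -/
noncomputable def G (x : ℝ) : ℝ := L x / sigmoid x

theorem L_pos' (x : ℝ) : 0 < L x := PS.L_pos x

theorem G_pos (x : ℝ) : 0 < G x := div_pos (L_pos' x) (sigmoid_pos x)

theorem L_eq_G (x : ℝ) : L x = G x * sigmoid x := by
  unfold G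
  rw [div_mul_cancel₀ _ (sigmoid_pos x).ne']

theorem hasDerivAt_G (x : ℝ) :
    HasDerivAt G ((sigmoid x * sigmoid x - L x * s x) / sigmoid x ^ 2) x :=
  (hasDerivAt_L x).div (hasDerivAt_S x) (sigmoid_pos x).ne'

theorem L_le_exp (x : ℝ) : L x ≤ Real.exp x := by
  show Real.log (1 + Real.exp x) ≤ Real.exp x
  have h := Real.log_le_sub_one_of_pos (x := 1 + Real.exp x) (by positivity)
  linarith

theorem S_eq (x : ℝ) : sigmoid x = Real.exp x * (1 - sigmoid x) := by
  rw [PS.one_sub_sigmoid, sigmoid_def, Real.exp_neg]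
  have h := Real.exp_pos x
  field_simp
  ring

theorem L_mul_s_le (x : ℝ) : L x * s x ≤ sigmoid x * sigmoid x := by
  have h1 := L_le_exp x
  have h2 := S_eq x
  have h3 : 0 < 1 - sigmoid x := sub_pos.2 (sigmoid_lt_one x)
  have h4 : L x * (1 - sigmoid x) ≤ sigmoid x :=
    (mul_le_mul_of_nonneg_right h1 h3.le).trans h2.symm.le
  have h5 : L x * s x = sigmoid x * (L x * (1 - sigmoid x)) := by
    unfold s
    ring
  rw [h5]
  exact mul_le_mul_of_nonneg_left h4 (sigmoid_nonneg x)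

theorem G_mono : Monotone G := by
  refine monotone_of_deriv_nonneg (fun x => (hasDerivAt_G x).differentiableAt) fun x => ?_
  rw [(hasDerivAt_G x).deriv]
  exact div_nonneg (sub_nonneg.2 (L_mul_s_le x)) (sq_nonneg _)

theorem G_slope {a b : ℝ} (hab : a ≤ b) : G b ≤ G a + (b - a) := by
  have hm : Monotone fun x => x - G x := by
    refine monotone_of_deriv_nonneg
      (fun x => ((hasDerivAt_id x).sub (hasDerivAt_G x)).differentiableAt) fun x => ?_
    have h1 : deriv (fun x => x - G x) x =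
        1 - (sigmoid x * sigmoid x - L x * s x) / sigmoid x ^ 2 :=
      ((hasDerivAt_id x).sub (hasDerivAt_G x)).deriv
    rw [h1, sub_nonneg, div_le_one (pow_pos (sigmoid_pos x) 2)]
    have h2 : 0 ≤ L x * s x := mul_nonneg (L_pos' x).le (s_pos x).le
    linarith [sq (sigmoid x)]
  have := hm hab
  simp only at this
  linarith

theorem C_neg (a b : ℝ) : C (-b) (-a) = -C a b := by
  unfold C
  rw [sigmoid_neg, sigmoid_neg, L_neg, L_neg]
  ring

theorem C_ge {a b : ℝ} (hab : a ≤ b) : (sigmoid b - sigmoid a) * ((b - a) / 2 - G b) ≤ C a b := by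
  have h1 := mul_le_mul_of_nonneg_right (G_slope hab) (sigmoid_nonneg a)
  unfold C
  rw [L_eq_G a, L_eq_G b]
  nlinarith [h1]

theorem C_le {a b : ℝ} (hab : a ≤ b) :
    C a b ≤ (sigmoid b - sigmoid a) * (G (-a) - (b - a) / 2) := by
  have h1 := C_ge (neg_le_neg hab)
  rw [C_neg, sigmoid_neg, sigmoid_neg] at h1
  have h2 : -a - -b = b - a := by ring
  rw [h2] at h1
  linarith

theorem C_ge_half {a b : ℝ} : -((sigmoid b - sigmoid a) * ((b - a) / 2)) ≤ C a b := by
  have h1 := PS.L_tangent b (a - b)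
  have h2 : b + (a - b) = a := by ring
  rw [h2] at h1
  unfold C
  nlinarith [h1]

theorem inv_S (x : ℝ) : 1 / sigmoid x = 1 + Real.exp (-x) := by
  rw [sigmoid_def, one_div, inv_inv]

theorem G_le (x : ℝ) : G x ≤ (x + Real.exp (-x)) * (1 + Real.exp (-x)) := by
  have h1 : L x = x + L (-x) := by
    rw [L_neg]
    ring
  have h2 := L_le_exp (-x)
  have h3 : G x = L x * (1 / sigmoid x) := by
    unfold G
    rw [mul_one_div]
  rw [h3, inv_S]
  exact mul_le_mul_of_nonneg_right (by linarith) (by positivity)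

variable {y1 y2 y3 m1 m2 m3 : ℝ}

/-- The mass of the third atom in the upper gap is at most `1 / S(u)`. -/
theorem Tri.D2_le (h : Tri y1 y2 y3 m1 m2 m3) :
    m3 * (sigmoid (y3 + y3) - sigmoid (y2 + y3)) ≤ 1 + Real.exp (-(y2 + y3)) := by
  have ha := h.a2
  have h1 := mul_pos h.m1pos (s_pos (y2 + y1))
  have h2 := mul_pos h.m2pos (s_pos (y2 + y2))
  have h3 : m3 * s (y2 + y3) ≤ 1 := by linarith
  rw [← inv_S, le_div_iff₀ (sigmoid_pos _)]
  refine le_trans ?_ h3
  have h4 : s (y2 + y3) = (1 - sigmoid (y2 + y3)) * sigmoid (y2 + y3) := by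
    unfold s
    ring
  rw [h4, ← mul_assoc]
  refine mul_le_mul_of_nonneg_right ?_ (sigmoid_nonneg _)
  exact mul_le_mul_of_nonneg_left (by linarith [sigmoid_le_one (y3 + y3)]) h.m3pos.le

theorem Tri.v_le (h : Tri y1 y2 y3 m1 m2 m3) :
    y3 - y2 ≤ 2 * G (y2 + y3) + 2 * (m3 * (sigmoid (y3 + y3) - sigmoid (y2 + y3))) := by
  have h12 := h.h12
  have h23 := h.h23
  have hE := h.E2
  have hA := h.A2
  set v := y3 - y2 with hv
  set A := m1 * (sigmoid (y3 + y1) - sigmoid (y2 + y1)) with hAdef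
  set B := m2 * (sigmoid (y3 + y2) - sigmoid (y2 + y2)) with hBdef
  set Dm := m3 * (sigmoid (y3 + y3) - sigmoid (y2 + y3)) with hDdef
  have hsum : A + B + Dm = v := by
    unfold P at hE
    rw [hAdef, hBdef, hDdef]
    exact hE
  have hA0 : 0 ≤ A := mul_nonneg h.m1pos.le (sub_nonneg.2 (sigmoid_le (by linarith)))
  have hB0 : 0 ≤ B := mul_nonneg h.m2pos.le (sub_nonneg.2 (sigmoid_le (by linarith)))
  have hD0 : 0 ≤ Dm := mul_nonneg h.m3pos.le (sub_nonneg.2 (sigmoid_le (by linarith)))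
  have c1 : A * (v / 2 - G (y2 + y3)) ≤ m1 * C (y2 + y1) (y3 + y1) := by
    have e1 := mul_le_mul_of_nonneg_left (C_ge (a := y2 + y1) (b := y3 + y1) (by linarith))
      h.m1pos.le
    have e2 : (y3 + y1 - (y2 + y1)) / 2 = v / 2 := by rw [hv]; ring
    rw [e2, ← mul_assoc, ← hAdef] at e1
    refine le_trans (mul_le_mul_of_nonneg_left ?_ hA0) e1
    have e3 : G (y3 + y1) ≤ G (y2 + y3) := G_mono (by linarith)
    linarith
  have c2 : B * (v / 2 - G (y2 + y3)) ≤ m2 * C (y2 + y2) (y3 + y2) := by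
    have e1 := mul_le_mul_of_nonneg_left (C_ge (a := y2 + y2) (b := y3 + y2) (by linarith))
      h.m2pos.le
    have e2 : (y3 + y2 - (y2 + y2)) / 2 = v / 2 := by rw [hv]; ring
    have e3 : G (y3 + y2) = G (y2 + y3) := by rw [add_comm]
    rw [e2, ← mul_assoc, ← hBdef, e3] at e1
    exact e1
  have c3 : -(Dm * (v / 2)) ≤ m3 * C (y2 + y3) (y3 + y3) := by
    have e1 := mul_le_mul_of_nonneg_left (C_ge_half (a := y2 + y3) (b := y3 + y3)) h.m3pos.le
    have e2 : (y3 + y3 - (y2 + y3)) / 2 = v / 2 := by rw [hv]; ring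
    rw [e2] at e1
    refine le_trans (le_of_eq ?_) e1
    rw [hDdef]
    ring
  have hmain : (v - Dm) * (v / 2 - G (y2 + y3)) ≤ Dm * (v / 2) := by
    have e4 : (A + B) * (v / 2 - G (y2 + y3)) - Dm * (v / 2) ≤ 0 := by
      linarith [c1, c2, c3, hA, add_mul A B (v / 2 - G (y2 + y3))]
    have e5 : A + B = v - Dm := by linarith
    rw [e5] at e4
    linarith
  by_contra hcon
  have hcon' := not_le.1 hcon
  have hG := G_pos (y2 + y3)
  have f1 : v / 2 < v - Dm := by linarith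
  have f2 : Dm < v / 2 - G (y2 + y3) := by linarith
  have hvpos : 0 < v := by linarith
  have f3 : Dm * (v / 2) < (v - Dm) * (v / 2 - G (y2 + y3)) := by
    nlinarith [mul_pos (sub_pos.2 f1) (sub_pos.2 f2)]
  linarith

theorem exp_neg_four_le : Real.exp (-4) ≤ 1 / 50 := by
  have h1 := Real.exp_one_gt_d9
  have h2 : Real.exp 4 = Real.exp 1 ^ 4 := by
    rw [← Real.exp_nat_mul]
    norm_num
  have h3 : (50 : ℝ) ≤ Real.exp 4 := by
    rw [h2]
    calc (50 : ℝ) ≤ (2.7 : ℝ) ^ 4 := by norm_num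
      _ ≤ Real.exp 1 ^ 4 := pow_le_pow_left₀ (by norm_num) (by linarith) 4
  rw [Real.exp_neg, one_div]
  exact inv_anti₀ (by norm_num) h3

/-- Regime (i). -/
theorem Tri.p_le (h : Tri y1 y2 y3 m1 m2 m3) (h2 : y2 ≤ 0) (hu : y2 + y3 ≤ 5) :
    -(2 * y2) ≤ 37 / 4 := by
  have h0 := h.y2_add_y3_pos h2
  have h1 := h.v_le
  have h3 := h.D2_le
  have h4 := G_le (y2 + y3)
  set u := y2 + y3 with hudef
  set E := Real.exp (-u) with hE
  have hE0 : 0 < E := Real.exp_pos _
  have h5 : -(2 * y2) ≤ u + 2 + 2 * u * E + 4 * E + 2 * E ^ 2 := by nlinarith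
  rcases le_or_gt u 4 with h6 | h6
  · have h7 : E * (1 + u) ≤ 1 := by
      have e1 : 1 + u ≤ Real.exp u := by linarith [Real.add_one_le_exp u]
      have e2 : E * Real.exp u = 1 := by
        rw [hE, ← Real.exp_add]
        simp
      calc E * (1 + u) ≤ E * Real.exp u := mul_le_mul_of_nonneg_left e1 hE0.le
        _ = 1 := e2
    have h8 : E ≤ 1 := by nlinarith
    have h9 : E ^ 2 ≤ E := by nlinarith
    -- `u + 2 + 2 (uE + E) + 2 E + 2 E² ≤ u + 4 + 4 E`
    have h10 : -(2 * y2) ≤ u + 4 + 4 * E := by nlinarith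
    have h11 : 4 * E ≤ 21 / 4 - u := by
      by_contra hcon
      have hcon' := not_le.1 hcon
      have e3 : (21 / 4 - u) * (1 + u) < 4 * (E * (1 + u)) := by nlinarith
      nlinarith
    linarith
  · have h7 : E ≤ 1 / 50 := by
      refine le_trans ?_ exp_neg_four_le
      rw [hE]
      exact Real.exp_le_exp.2 (by linarith)
    have h8 : u * E ≤ 5 * (1 / 50) := by nlinarith
    nlinarith

end Pool.Agent.helper26.B3
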