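import Pool.Agent.helper85.B3.RegA

/-!
Regime (iii): `y2 + y3 ≥ 5` and `-(y1 + y3) < 11 / 10`.
-/

set_option autoImplicit false

namespace Pool.Agent.helper26.B3

open Real Set

theorem exp_184 : Real.exp (-(46 / 25)) < 4 / 25 := by
  have h1 := Real.sum_le_exp_of_nonneg (x := 46 / 25) (by norm_num) 10
  have h2 : (25 / 4 : ℝ) < ∑ i ∈ Finset.range 10, (46 / 25 : ℝ) ^ i / (i.factorial : ℝ) := by
    norm_num [Finset.sum_range_succ, Nat.factorial]
  have h3 : (25 / 4 : ℝ) < Real.exp (46 / 25) := lt_of_lt_of_le h2 h1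
  rw [Real.exp_neg]
  have h4 : (4 / 25 : ℝ) = (25 / 4)⁻¹ := by norm_num
  rw [h4]
  exact inv_strictAnti₀ (by norm_num) h3

theorem exp_334 : Real.exp (-(167 / 50)) ≤ 9 / 250 := by
  have h1 := Real.sum_le_exp_of_nonneg (x := 167 / 50) (by norm_num) 12
  have h2 : (250 / 9 : ℝ) ≤ ∑ i ∈ Finset.range 12, (167 / 50 : ℝ) ^ i / (i.factorial : ℝ) := by
    norm_num [Finset.sum_range_succ, Nat.factorial]
  have h3 : (250 / 9 : ℝ) ≤ Real.exp (167 / 50) := h2.trans h1
  rw [Real.exp_neg]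
  have h4 : (9 / 250 : ℝ) = (250 / 9)⁻¹ := by norm_num
  rw [h4]
  exact inv_anti₀ (by norm_num) h3

theorem exp_3 : Real.exp (-3) ≤ 1 / 20 := by
  have h1 := Real.sum_le_exp_of_nonneg (x := 3) (by norm_num) 12
  have h2 : (20 : ℝ) ≤ ∑ i ∈ Finset.range 12, (3 : ℝ) ^ i / (i.factorial : ℝ) := by
    norm_num [Finset.sum_range_succ, Nat.factorial]
  have h3 : (20 : ℝ) ≤ Real.exp 3 := h2.trans h1
  rw [Real.exp_neg, one_div]
  exact inv_anti₀ (by norm_num) h3

theorem exp_1375_ge : (79 / 20 : ℝ) ≤ Real.exp (11 / 8) := by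
  have h1 := Real.sum_le_exp_of_nonneg (x := 11 / 8) (by norm_num) 10
  refine le_trans ?_ h1
  norm_num [Finset.sum_range_succ, Nat.factorial]

theorem exp_1375_le : Real.exp (11 / 8) ≤ 99 / 25 := by
  have h4 : Real.exp (11 / 8) = Real.exp 1 * Real.exp (3 / 8) := by
    rw [← Real.exp_add]
    norm_num
  have h5 := Real.exp_one_lt_d9
  have h6 : Real.exp (3 / 8) ≤ 14552 / 10000 := by
    have h7 := Real.exp_bound' (x := 3 / 8) (by norm_num) (by norm_num) (n := 4) (by norm_num)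
    refine h7.trans ?_
    norm_num [Finset.sum_range_succ, Nat.factorial]
  rw [h4]
  nlinarith [Real.exp_pos (3 / 8), Real.exp_pos 1]

theorem exp_11 : Real.exp (11 / 10) < 31 / 10 := by
  have h4 : Real.exp (11 / 10) = Real.exp 1 * Real.exp (1 / 10) := by
    rw [← Real.exp_add]
    norm_num
  have h5 := Real.exp_one_lt_d9
  have h6 : Real.exp (1 / 10) ≤ 111 / 100 := by
    have h7 := Real.exp_bound' (x := 1 / 10) (by norm_num) (by norm_num) (n := 3) (by norm_num)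
    refine h7.trans ?_
    norm_num [Finset.sum_range_succ, Nat.factorial]
  rw [h4]
  nlinarith [Real.exp_pos (1 / 10), Real.exp_pos 1]

theorem cosh_1375 : 2 < Real.cosh (11 / 8) := by
  rw [Real.cosh_eq]
  have h1 := exp_1375_ge
  have h2 := exp_1375_le
  have h3 : 25 / 99 ≤ Real.exp (-(11 / 8)) := by
    rw [Real.exp_neg]
    have h4 : (25 / 99 : ℝ) = (99 / 25)⁻¹ := by norm_num
    rw [h4]
    exact inv_anti₀ (Real.exp_pos _) h2
  linarith

theorem exp_lt_two_add {q : ℝ} (h1 : -(46 / 25) ≤ q) (h2 : q ≤ 11 / 10) :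
    Real.exp q < 2 + q := by
  have a0 : 0 ≤ (11 / 10 - q) / (147 / 50) := div_nonneg (by linarith) (by norm_num)
  have b0 : 0 ≤ (q + 46 / 25) / (147 / 50) := div_nonneg (by linarith) (by norm_num)
  have hab : (11 / 10 - q) / (147 / 50) + (q + 46 / 25) / (147 / 50) = 1 := by ring
  have hc := convexOn_exp.2 (mem_univ (-(46 / 25) : ℝ)) (mem_univ (11 / 10 : ℝ)) a0 b0 hab
  simp only [smul_eq_mul] at hc
  have e : (11 / 10 - q) / (147 / 50) * -(46 / 25) + (q + 46 / 25) / (147 / 50) * (11 / 10) = q := by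
    ring
  rw [e] at hc
  have h3 := exp_184
  have h4 := exp_11
  have f1 := mul_le_mul_of_nonneg_left h3.le a0
  have f2 := mul_le_mul_of_nonneg_left h4.le b0
  have f3 : (11 / 10 - q) / (147 / 50) * (4 / 25) + (q + 46 / 25) / (147 / 50) * (31 / 10) =
      2 + q := by ring
  rcases a0.eq_or_lt with ha | ha
  · have hb : 0 < (q + 46 / 25) / (147 / 50) := by rw [← ha] at hab; linarith
    have f4 := mul_lt_mul_of_pos_left h4 hb
    linarith
  · have f4 := mul_lt_mul_of_pos_left h3 ha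
    linarith

theorem exp_neg_le_half {p : ℝ} (h0 : 0 ≤ p) (h1 : p ≤ 11 / 8) : Real.exp (-p) ≤ 1 - p / 2 := by
  have a0 : 0 ≤ 1 - p / (11 / 8) := by rw [sub_nonneg, div_le_one (by norm_num)]; exact h1
  have b0 : 0 ≤ p / (11 / 8) := div_nonneg h0 (by norm_num)
  have hab : 1 - p / (11 / 8) + p / (11 / 8) = 1 := by ring
  have hc := convexOn_exp.2 (mem_univ (0 : ℝ)) (mem_univ (-(11 / 8) : ℝ)) a0 b0 hab
  simp only [smul_eq_mul] at hc
  have e : (1 - p / (11 / 8)) * 0 + p / (11 / 8) * -(11 / 8) = -p := by ring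
  rw [e, Real.exp_zero] at hc
  have h2 : Real.exp (-(11 / 8)) ≤ 5 / 16 := by
    rw [Real.exp_neg]
    have h4 : (5 / 16 : ℝ) = (16 / 5)⁻¹ := by norm_num
    rw [h4]
    exact inv_anti₀ (by norm_num) (by linarith [exp_1375_ge])
  have h3 := mul_le_mul_of_nonneg_left h2 (div_nonneg h0 (by norm_num : (0 : ℝ) ≤ 11 / 8))
  have h5 : p / (11 / 8) * (5 / 16) = p / (11 / 8) - p / 2 := by ring
  linarith

theorem sdd_pos {t : ℝ} (h : 2 < Real.cosh t) : 0 < sdd t := by
  have h2 : s t < 1 / 6 := by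
    rw [s_eq, one_div]
    exact inv_strictAnti₀ (by norm_num) (by linarith)
  unfold sdd
  exact mul_pos (s_pos t) (by linarith)

variable {y1 y2 y3 m1 m2 m3 : ℝ}

/-- The mass of the third atom in the lower gap. -/
theorem Tri.D1_le (h : Tri y1 y2 y3 m1 m2 m3) :
    m3 * (sigmoid (y2 + y3) - sigmoid (y1 + y3)) ≤ 1 + Real.exp (-(y1 + y3)) := by
  have ha := h.a1
  have h1 := mul_pos h.m1pos (s_pos (y1 + y1))
  have h2 := mul_pos h.m2pos (s_pos (y1 + y2))
  have h3 : m3 * s (y1 + y3) ≤ 1 := by linarith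
  rw [← inv_S, le_div_iff₀ (sigmoid_pos _)]
  refine le_trans ?_ h3
  have h4 : s (y1 + y3) = (1 - sigmoid (y1 + y3)) * sigmoid (y1 + y3) := by
    unfold s
    ring
  rw [h4, ← mul_assoc]
  refine mul_le_mul_of_nonneg_right ?_ (sigmoid_nonneg _)
  exact mul_le_mul_of_nonneg_left (by linarith [sigmoid_le_one (y2 + y3)]) h.m3pos.le

/-- The mass of the first two atoms in the lower gap. -/
theorem Tri.X_le (h : Tri y1 y2 y3 m1 m2 m3) :
    m1 * (sigmoid (y2 + y1) - sigmoid (y1 + y1)) + m2 * (sigmoid (y2 + y2) - sigmoid (y1 + y2)) ≤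
      1 + Real.exp (2 * y2) := by
  have ha := h.a2
  have h12 := h.h12
  have h3 := mul_pos h.m3pos (s_pos (y2 + y3))
  have h4 : m1 * s (y2 + y1) + m2 * s (y2 + y2) ≤ 1 := by linarith
  have h5 : (2 : ℝ) * y2 = -(-(y2 + y2)) := by ring
  rw [h5, ← inv_S, le_div_iff₀ (sigmoid_pos _), sigmoid_neg]
  refine le_trans ?_ h4
  have h6 : sigmoid (y2 + y1) ≤ sigmoid (y2 + y2) := sigmoid_le (by linarith)
  have h7 := sigmoid_pos (y1 + y1)
  have h8 := sigmoid_pos (y1 + y2)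
  have h9 := sigmoid_pos (y2 + y1)
  have h10 := sigmoid_pos (y2 + y2)
  have h11 := sigmoid_lt_one (y2 + y2)
  have e1 : (sigmoid (y2 + y1) - sigmoid (y1 + y1)) * (1 - sigmoid (y2 + y2)) ≤ s (y2 + y1) := by
    unfold s
    nlinarith [mul_nonneg h9.le (sub_nonneg.2 h6), mul_pos h7 (sub_pos.2 h11)]
  have e2 : (sigmoid (y2 + y2) - sigmoid (y1 + y2)) * (1 - sigmoid (y2 + y2)) ≤ s (y2 + y2) := by
    unfold s
    nlinarith [mul_pos h8 (sub_pos.2 h11)]
  have f1 := mul_le_mul_of_nonneg_left e1 h.m1pos.le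
  have f2 := mul_le_mul_of_nonneg_left e2 h.m2pos.le
  linarith

theorem Tri.w_le (h : Tri y1 y2 y3 m1 m2 m3) :
    y2 - y1 ≤ 2 + Real.exp (-(y1 + y3)) + Real.exp (2 * y2) := by
  have hE := h.E1
  unfold P at hE
  have h1 := h.D1_le
  have h2 := h.X_le
  linarith

/-- The upper gap has length at most `2 G(-(y1 + y2))`. -/
theorem Tri.v_le' (h : Tri y1 y2 y3 m1 m2 m3) : y3 - y2 ≤ 2 * G (-(y2 + y1)) := by
  have h12 := h.h12
  have h23 := h.h23
  have hE := h.E2
  have hA := h.A2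
  by_contra hcon
  have hcon' := not_le.1 hcon
  set g := G (-(y2 + y1)) with hg
  have hneg : g - (y3 - y2) / 2 < 0 := by linarith
  have c1 : m1 * C (y2 + y1) (y3 + y1) ≤ m1 * P (y2 + y1) (y3 + y1) * (g - (y3 - y2) / 2) := by
    have e1 := mul_le_mul_of_nonneg_left (C_le (a := y2 + y1) (b := y3 + y1) (by linarith))
      h.m1pos.le
    have e2 : (y3 + y1 - (y2 + y1)) / 2 = (y3 - y2) / 2 := by ring
    rw [e2, ← mul_assoc] at e1
    exact e1
  have c2 : m2 * C (y2 + y2) (y3 + y2) ≤ m2 * P (y2 + y2) (y3 + y2) * (g - (y3 - y2) / 2) := by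
    have e1 := mul_le_mul_of_nonneg_left (C_le (a := y2 + y2) (b := y3 + y2) (by linarith))
      h.m2pos.le
    have e2 : (y3 + y2 - (y2 + y2)) / 2 = (y3 - y2) / 2 := by ring
    rw [e2, ← mul_assoc] at e1
    refine e1.trans (mul_le_mul_of_nonneg_left ?_ ?_)
    · have e3 : G (-(y2 + y2)) ≤ g := G_mono (by linarith)
      linarith
    · exact mul_nonneg h.m2pos.le (sub_nonneg.2 (sigmoid_le (by linarith)))
  have c3 : m3 * C (y2 + y3) (y3 + y3) ≤ m3 * P (y2 + y3) (y3 + y3) * (g - (y3 - y2) / 2) := by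
    have e1 := mul_le_mul_of_nonneg_left (C_le (a := y2 + y3) (b := y3 + y3) (by linarith))
      h.m3pos.le
    have e2 : (y3 + y3 - (y2 + y3)) / 2 = (y3 - y2) / 2 := by ring
    rw [e2, ← mul_assoc] at e1
    refine e1.trans (mul_le_mul_of_nonneg_left ?_ ?_)
    · have e3 : G (-(y2 + y3)) ≤ g := G_mono (by linarith)
      linarith
    · exact mul_nonneg h.m3pos.le (sub_nonneg.2 (sigmoid_le (by linarith)))
  have hsum : m1 * P (y2 + y1) (y3 + y1) * (g - (y3 - y2) / 2) +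
      m2 * P (y2 + y2) (y3 + y2) * (g - (y3 - y2) / 2) +
      m3 * P (y2 + y3) (y3 + y3) * (g - (y3 - y2) / 2) = (y3 - y2) * (g - (y3 - y2) / 2) := by
    rw [← hE]
    ring
  have hfin : (y3 - y2) * (g - (y3 - y2) / 2) < 0 :=
    mul_neg_of_pos_of_neg (sub_pos.2 h23) hneg
  linarith

/-- `ρ` is not strictly convex on the lower gap. -/
theorem Tri.not_convex (h : Tri y1 y2 y3 m1 m2 m3) (h1 : 46 / 25 ≤ y1 + y3)
    (h2 : 11 / 8 ≤ -(2 * y2)) : False := by
  obtain ⟨⟨x, hx, hDx⟩, -⟩ := h.exists_one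
  have h12 := h.h12
  have hconv : StrictConvexOn ℝ (Icc y1 y2) (D y1 y2 y3 m1 m2 m3) := by
    refine strictConvexOn_of_deriv2_pos (convex_Icc y1 y2) ?_ ?_
    · exact fun x _ => (hasDerivAt_D y1 y2 y3 m1 m2 m3 x).continuousAt.continuousWithinAt
    · intro t ht
      rw [interior_Icc] at ht
      have hd1 : deriv (D y1 y2 y3 m1 m2 m3) =
          fun x => m1 * sd (x + y1) + m2 * sd (x + y2) + m3 * sd (x + y3) := by
        funext x
        exact (hasDerivAt_D y1 y2 y3 m1 m2 m3 x).deriv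
      have hd2 : (deriv^[2] (D y1 y2 y3 m1 m2 m3)) t =
          m1 * sdd (t + y1) + m2 * sdd (t + y2) + m3 * sdd (t + y3) := by
        show deriv (deriv (D y1 y2 y3 m1 m2 m3)) t = _
        rw [hd1]
        exact (hasDerivAt_D' y1 y2 y3 m1 m2 m3 t).deriv
      rw [hd2]
      have ht1 := ht.1
      have ht2 := ht.2
      have hneg : ∀ z, z ≤ -(11 / 8) → 0 < sdd z := by
        intro z hz
        refine sdd_pos (lt_of_lt_of_le cosh_1375 (Real.cosh_le_cosh.2 ?_))
        rw [abs_of_nonneg (by norm_num : (0 : ℝ) ≤ 11 / 8), abs_of_nonpos (by linarith)]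
        linarith
      have hpos : 0 < sdd (t + y3) := by
        refine sdd_pos (lt_of_lt_of_le cosh_1375 (Real.cosh_le_cosh.2 ?_))
        rw [abs_of_nonneg (by norm_num : (0 : ℝ) ≤ 11 / 8), abs_of_nonneg (by linarith)]
        linarith
      have f1 := mul_pos h.m1pos (hneg (t + y1) (by linarith))
      have f2 := mul_pos h.m2pos (hneg (t + y2) (by linarith))
      have f3 := mul_pos h.m3pos hpos
      linarith
  have hopen : x ∈ openSegment ℝ y1 y2 := by
    rw [openSegment_eq_Ioo h12]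
    exact hx
  have h5 := hconv.lt_on_openSegment (left_mem_Icc.2 h12.le) (right_mem_Icc.2 h12.le) h12.ne hopen
  have h6 : D y1 y2 y3 m1 m2 m3 y1 ≤ 1 := h.a1
  have h7 := h.D_y2_le
  rw [hDx] at h5
  exact absurd (max_le h6 h7) (not_le.2 h5)

/-- Regime (iii). -/
theorem Tri.region_c (h : Tri y1 y2 y3 m1 m2 m3) (h2 : y2 ≤ 0) (hu : 5 ≤ y2 + y3)
    (hq : -(y1 + y3) ≤ 11 / 10) :
    -(2 * y2) ≤ 11 / 8 ∧ y2 - y1 ≤ 13 / 4 ∧ y2 + y3 ≤ 13 / 2 := by
  have hw := h.w_le
  have hp1 : Real.exp (2 * y2) ≤ 1 := Real.exp_le_one_iff.2 (by linarith)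
  have hq2 : -(y1 + y3) < -(46 / 25) := by
    by_contra hcon
    have e := exp_lt_two_add (not_lt.1 hcon) hq
    linarith
  have hr : Real.exp (-(y1 + y3)) ≤ 4 / 25 :=
    (Real.exp_le_exp.2 hq2.le).trans exp_184.le
  have hw2 : y2 - y1 ≤ 79 / 25 := by linarith
  have hp : -(2 * y2) ≤ 11 / 8 := by
    by_contra hcon
    exact h.not_convex (by linarith) (not_le.1 hcon).le
  refine ⟨hp, by linarith, ?_⟩
  by_contra hcon
  have hu2 := not_le.1 hcon
  have hr2 : Real.exp (-(y1 + y3)) ≤ 9 / 250 :=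
    (Real.exp_le_exp.2 (by linarith)).trans exp_334
  have hv := h.v_le'
  have he := exp_neg_le_half (p := -(2 * y2)) (by linarith) hp
  rw [neg_neg] at he
  have hG3 : G 3 ≤ 3203 / 1000 := by
    refine (G_le 3).trans ?_
    have h3 := exp_3
    have h4 := Real.exp_pos (-3)
    nlinarith
  -- `z = -(y1 + y2) ≤ 3 + (p + e^(-p) - 1) + 9 / 250`
  have hz : G (-(y2 + y1)) ≤ G 3 + (-(2 * y2) + Real.exp (2 * y2) - 1) + 9 / 250 := by
    have hp0 : 0 ≤ -(2 * y2) + Real.exp (2 * y2) - 1 := by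
      linarith [Real.add_one_le_exp (2 * y2)]
    rcases le_total (-(y2 + y1)) 3 with h3 | h3
    · have := G_mono h3
      linarith
    · have := G_slope h3
      linarith
  linarith

end Pool.Agent.helper26.B3
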